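import Pool.Agent.Lib.MP_658dbf_an_Q.Final

/-!
Lower bounds for the energy in terms of the number of terms.
-/

set_option autoImplicit false

open MeasureTheory Set Filter Topology

namespace Pool.Agent.MP658c

open Pool.Agent.MP658dbf Pool.Agent.MP658q

variable {μ : ℝ}

theorem tl_anti (hμ : 0 < μ) (hμ1 : μ ≤ 1) {m n : ℕ} (h : m ≤ n) : tl μ n ≤ tl μ m := by
  induction n, h using Nat.le_induction with
  | base => exact le_rfl
  | succ n _ ih =>
    have h1 := tl_rec hμ n
    have h2 := kap_nonneg hμ hμ1 n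
    linarith

theorem sum_dist (hμ : 0 < μ) (hμ1 : μ ≤ 1) (q : ℕ) : ∀ T : Finset ℕ, (∀ d ∈ T, 1 ≤ d) →
    T.card ≤ q → ∑ d ∈ T, kap μ d ≤ tl μ 1 - tl μ (q + 1) := by
  induction q with
  | zero =>
    intro T _ hc
    have h1 : T = ∅ := Finset.card_eq_zero.mp (Nat.le_zero.mp hc)
    rw [h1]
    simp
  | succ q ih =>
    intro T hT hc
    rcases Nat.lt_or_ge T.card (q + 1) with h | h
    · have h1 := ih T hT (by omega)
      have h2 := tl_anti hμ hμ1 (show q + 1 ≤ q + 1 + 1 by omega)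
      linarith
    · have hcard : T.card = q + 1 := by omega
      have hne : T.Nonempty := by
        rw [← Finset.card_pos]; omega
      have hm := Finset.max'_mem T hne
      set m := T.max' hne with hmdef
      have hmq : q + 1 ≤ m := by
        have h1 : T ⊆ Finset.Icc 1 m := by
          intro d hd
          rw [Finset.mem_Icc]
          exact ⟨hT d hd, Finset.le_max' T d hd⟩
        have h2 := Finset.card_le_card h1
        rw [Nat.card_Icc] at h2
        omega
      have h1 := ih (T.erase m) (fun d hd => hT d (Finset.mem_of_mem_erase hd)) (by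
        rw [Finset.card_erase_of_mem hm]; omega)
      have h2 : ∑ d ∈ T, kap μ d = kap μ m + ∑ d ∈ T.erase m, kap μ d :=
        (Finset.add_sum_erase T _ hm).symm
      have h3 := kap_anti' hμ hμ1 (show 1 ≤ q + 1 by omega) hmq
      have h4 := tl_rec hμ (q + 1)
      rw [h2]
      linarith

/-- the interaction of two exponents -/
noncomputable def K (μ : ℝ) (i j : ℕ) : ℝ := kap μ (Int.natAbs ((i : ℤ) - j))

theorem K_self (i : ℕ) : K μ i i = 0 := by
  unfold K
  simp [kap_zero]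

theorem K_comm (i j : ℕ) : K μ i j = K μ j i := by
  unfold K
  congr 1
  omega

theorem K_nonneg (hμ : 0 < μ) (hμ1 : μ ≤ 1) (i j : ℕ) : 0 ≤ K μ i j := kap_nonneg hμ hμ1 _

theorem wh_eq (i j : ℕ) : wh μ (Int.natAbs ((i : ℤ) - j)) =
    (if i = j then wh μ 0 else 0) - K μ i j := by
  unfold K
  by_cases h : i = j
  · subst h
    simp [kap_zero]
  · have h1 : Int.natAbs ((i : ℤ) - j) ≠ 0 := by omega
    rw [kap_pos μ h1, if_neg h]
    ring

theorem sum_above (hμ : 0 < μ) (hμ1 : μ ≤ 1) (S : Finset ℕ) (i q : ℕ)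
    (h : (S.filter (fun j => i < j)).card ≤ q) :
    ∑ j ∈ S.filter (fun j => i < j), K μ i j ≤ tl μ 1 - tl μ (q + 1) := by
  set T := (S.filter (fun j => i < j)).image (fun j => j - i) with hT
  have hinj : Set.InjOn (fun j => j - i) (S.filter (fun j => i < j) : Finset ℕ) := by
    intro a ha b hb hab
    have h1 := (Finset.mem_filter.mp ha).2
    have h2 := (Finset.mem_filter.mp hb).2
    simp only at hab
    omega
  have h1 : ∑ d ∈ T, kap μ d = ∑ j ∈ S.filter (fun j => i < j), K μ i j := by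
    rw [hT, Finset.sum_image hinj]
    apply Finset.sum_congr rfl
    intro j hj
    have h2 := (Finset.mem_filter.mp hj).2
    unfold K
    congr 1
    omega
  rw [← h1]
  apply sum_dist hμ hμ1
  · intro d hd
    rw [hT, Finset.mem_image] at hd
    obtain ⟨j, hj, rfl⟩ := hd
    have h2 := (Finset.mem_filter.mp hj).2
    omega
  · exact (Finset.card_image_le).trans h

theorem sum_below (hμ : 0 < μ) (hμ1 : μ ≤ 1) (S : Finset ℕ) (i q : ℕ)
    (h : (S.filter (fun j => j < i)).card ≤ q) :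
    ∑ j ∈ S.filter (fun j => j < i), K μ i j ≤ tl μ 1 - tl μ (q + 1) := by
  set T := (S.filter (fun j => j < i)).image (fun j => i - j) with hT
  have hinj : Set.InjOn (fun j => i - j) (S.filter (fun j => j < i) : Finset ℕ) := by
    intro a ha b hb hab
    have h1 := (Finset.mem_filter.mp ha).2
    have h2 := (Finset.mem_filter.mp hb).2
    simp only at hab
    omega
  have h1 : ∑ d ∈ T, kap μ d = ∑ j ∈ S.filter (fun j => j < i), K μ i j := by
    rw [hT, Finset.sum_image hinj]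
    apply Finset.sum_congr rfl
    intro j hj
    have h2 := (Finset.mem_filter.mp hj).2
    unfold K
    congr 1
    omega
  rw [← h1]
  apply sum_dist hμ hμ1
  · intro d hd
    rw [hT, Finset.mem_image] at hd
    obtain ⟨j, hj, rfl⟩ := hd
    have h2 := (Finset.mem_filter.mp hj).2
    omega
  · exact (Finset.card_image_le).trans h

theorem sum_split (S : Finset ℕ) (i : ℕ) : ∑ j ∈ S, K μ i j =
    ∑ j ∈ S.filter (fun j => j < i), K μ i j + ∑ j ∈ S.filter (fun j => i < j), K μ i j := by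
  rw [← Finset.sum_filter_add_sum_filter_not S (fun j => j < i)]
  congr 1
  have h1 : S.filter (fun j => i < j) ⊆ S.filter (fun j => ¬ j < i) := by
    intro j hj
    rw [Finset.mem_filter] at hj ⊢
    exact ⟨hj.1, by omega⟩
  symm
  apply Finset.sum_subset h1
  intro j hj hj'
  rw [Finset.mem_filter] at hj hj'
  have : i = j := by
    by_contra hne
    exact hj' ⟨hj.1, by omega⟩
  rw [this, K_self]

theorem row_le (hμ : 0 < μ) (hμ1 : μ ≤ 1) (S : Finset ℕ) (i : ℕ) (hi : i ∈ S) :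
    ∑ j ∈ S, K μ i j ≤ wh μ 0 - 2 * tl μ S.card := by
  have hpos : 0 < S.card := Finset.card_pos.mpr ⟨i, hi⟩
  obtain ⟨q, hq⟩ : ∃ q, S.card = q + 1 := ⟨S.card - 1, by omega⟩
  rw [sum_split, ← tl_one hμ, hq]
  have h1 : (S.filter (fun j => j < i)).card ≤ q := by
    have h2 : S.filter (fun j => j < i) ⊆ S.erase i := by
      intro j hj
      rw [Finset.mem_filter] at hj
      rw [Finset.mem_erase]
      exact ⟨by omega, hj.1⟩
    have h3 := Finset.card_le_card h2
    rw [Finset.card_erase_of_mem hi] at h3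
    omega
  have h2 : (S.filter (fun j => i < j)).card ≤ q := by
    have h2 : S.filter (fun j => i < j) ⊆ S.erase i := by
      intro j hj
      rw [Finset.mem_filter] at hj
      rw [Finset.mem_erase]
      exact ⟨by omega, hj.1⟩
    have h3 := Finset.card_le_card h2
    rw [Finset.card_erase_of_mem hi] at h3
    omega
  have h3 := sum_below hμ hμ1 S i q h1
  have h4 := sum_above hμ hμ1 S i q h2
  linarith

theorem G_low (hμ : 0 < μ) (hμ1 : μ ≤ 1) (S : Finset ℕ) :
    2 * ∑ i ∈ Finset.range S.card, tl μ (i + 1) ≤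
      S.card * wh μ 0 - ∑ i ∈ S, ∑ j ∈ S, K μ i j := by
  induction S using Finset.induction_on_max with
  | empty => simp
  | insert M S hM ih =>
    have hnot : M ∉ S := fun h => lt_irrefl _ (hM M h)
    rw [Finset.card_insert_of_notMem hnot, Finset.sum_range_succ, Finset.sum_insert hnot,
      Finset.sum_insert hnot, K_self]
    have h1 : ∑ i ∈ S, ∑ j ∈ insert M S, K μ i j =
        ∑ i ∈ S, K μ M i + ∑ i ∈ S, ∑ j ∈ S, K μ i j := by
      rw [← Finset.sum_add_distrib]
      apply Finset.sum_congr rfl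
      intro i _
      rw [Finset.sum_insert hnot, K_comm]
    rw [h1]
    have h2 : S.filter (fun j => j < M) = S := by
      apply Finset.filter_true_of_mem
      intro j hj
      exact hM j hj
    have h3 := sum_below hμ hμ1 S M S.card (by rw [h2])
    rw [h2] at h3
    have h4 := tl_one hμ
    push_cast
    linarith

/-- the energy over a finite set of exponents -/
theorem energy_low (hμ : 0 < μ) (hμ1 : μ ≤ 1) (S : Finset ℕ) (f : ℕ → ℤ)
    (hf : ∀ i ∈ S, f i ≠ 0) :
    2 * ∑ i ∈ Finset.range S.card, tl μ (i + 1) ≤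
        ∑ i ∈ S, ∑ j ∈ S, ((f i : ℝ) * f j) * wh μ (Int.natAbs ((i : ℤ) - j)) ∧
      2 * tl μ S.card * ∑ i ∈ S, (f i : ℝ) ^ 2 ≤
        ∑ i ∈ S, ∑ j ∈ S, ((f i : ℝ) * f j) * wh μ (Int.natAbs ((i : ℤ) - j)) := by
  have h1 : ∑ i ∈ S, ∑ j ∈ S, ((f i : ℝ) * f j) * wh μ (Int.natAbs ((i : ℤ) - j)) =
      ∑ i ∈ S, (f i : ℝ) ^ 2 * wh μ 0 - ∑ i ∈ S, ∑ j ∈ S, ((f i : ℝ) * f j) * K μ i j := by
    rw [← Finset.sum_sub_distrib]
    apply Finset.sum_congr rfl
    intro i hi
    have h2 : ∀ j ∈ S, ((f i : ℝ) * f j) * wh μ (Int.natAbs ((i : ℤ) - j)) =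
        (if i = j then ((f i : ℝ) * f j) * wh μ 0 else 0) - ((f i : ℝ) * f j) * K μ i j := by
      intro j _
      rw [wh_eq]
      by_cases h : i = j
      · rw [if_pos h, if_pos h]; ring
      · rw [if_neg h, if_neg h]; ring
    rw [Finset.sum_congr rfl h2, Finset.sum_sub_distrib, Finset.sum_ite_eq, if_pos hi]
    ring
  have h2 : ∑ i ∈ S, ∑ j ∈ S, ((f i : ℝ) * f j) * K μ i j ≤
      ∑ i ∈ S, (f i : ℝ) ^ 2 * ∑ j ∈ S, K μ i j := by
    have h3 : ∑ i ∈ S, ∑ j ∈ S, ((f i : ℝ) * f j) * K μ i j ≤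
        ∑ i ∈ S, ∑ j ∈ S, ((f i : ℝ) ^ 2 / 2 * K μ i j + (f j : ℝ) ^ 2 / 2 * K μ i j) := by
      apply Finset.sum_le_sum
      intro i _
      apply Finset.sum_le_sum
      intro j _
      have := K_nonneg hμ hμ1 i j
      nlinarith [sq_nonneg ((f i : ℝ) - f j)]
    refine h3.trans (le_of_eq ?_)
    simp_rw [Finset.sum_add_distrib]
    have h4 : ∑ i ∈ S, ∑ j ∈ S, (f j : ℝ) ^ 2 / 2 * K μ i j =
        ∑ i ∈ S, ∑ j ∈ S, (f i : ℝ) ^ 2 / 2 * K μ i j := by
      rw [Finset.sum_comm]
      apply Finset.sum_congr rfl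
      intro i _
      apply Finset.sum_congr rfl
      intro j _
      rw [K_comm]
    rw [h4, ← Finset.sum_add_distrib]
    apply Finset.sum_congr rfl
    intro i _
    rw [← Finset.sum_add_distrib, Finset.mul_sum]
    apply Finset.sum_congr rfl
    intro j _
    ring
  have h3 : ∑ i ∈ S, (f i : ℝ) ^ 2 * (wh μ 0 - ∑ j ∈ S, K μ i j) ≤
      ∑ i ∈ S, ∑ j ∈ S, ((f i : ℝ) * f j) * wh μ (Int.natAbs ((i : ℤ) - j)) := by
    rw [h1]
    have : ∑ i ∈ S, (f i : ℝ) ^ 2 * (wh μ 0 - ∑ j ∈ S, K μ i j) =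
        ∑ i ∈ S, (f i : ℝ) ^ 2 * wh μ 0 - ∑ i ∈ S, (f i : ℝ) ^ 2 * ∑ j ∈ S, K μ i j := by
      rw [← Finset.sum_sub_distrib]
      apply Finset.sum_congr rfl
      intro i _
      ring
    rw [this]
    linarith
  constructor
  · refine (G_low hμ hμ1 S).trans (le_trans ?_ h3)
    have h4 : (S.card : ℝ) * wh μ 0 - ∑ i ∈ S, ∑ j ∈ S, K μ i j =
        ∑ i ∈ S, 1 * (wh μ 0 - ∑ j ∈ S, K μ i j) := by
      simp only [one_mul]
      rw [Finset.sum_sub_distrib, Finset.sum_const, nsmul_eq_mul]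
    rw [h4]
    apply Finset.sum_le_sum
    intro i hi
    have h5 := row_le hμ hμ1 S i hi
    have h6 := tl_nonneg hμ hμ1 S.card
    apply mul_le_mul_of_nonneg_right _ (by linarith)
    have h7 : (1 : ℤ) ≤ f i ^ 2 := by
      have := hf i hi
      have : 0 < f i ^ 2 := by positivity
      omega
    exact_mod_cast h7
  · refine le_trans ?_ h3
    rw [Finset.mul_sum]
    apply Finset.sum_le_sum
    intro i hi
    have h5 := row_le hμ hμ1 S i hi
    rw [mul_comm]
    apply mul_le_mul_of_nonneg_left _ (sq_nonneg _)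
    linarith

end Pool.Agent.MP658c
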