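import Pool.Agent.Lib.MP_658dbf_an_C.Weights
import Pool.Agent.Lib.MP_658dbf_an_C.EnergyLow

/-!
Comparison of the weighted integrals of one polynomial for two parameters.
-/

set_option autoImplicit false

open MeasureTheory Set Filter Topology

namespace Pool.Agent.MP658c

open Pool.Agent.MP658dbf Pool.Agent.MP658q

theorem sup_le (F : Polynomial ℤ) (θ : ℝ) : ‖Polynomial.aeval (zt θ) F‖ ≤ nsq F := by
  have h0 : Polynomial.aeval (zt θ) F =
      ∑ i ∈ Finset.range (F.natDegree + 1), (F.coeff i : ℂ) * zt θ ^ i := by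
    rw [Polynomial.aeval_eq_sum_range]
    apply Finset.sum_congr rfl
    intro i _
    simp
  rw [h0]
  unfold nsq
  refine (norm_sum_le _ _).trans (Finset.sum_le_sum ?_)
  intro i _
  rw [norm_mul, norm_pow, norm_zt, one_pow, mul_one, Complex.norm_intCast]
  exact int_sq_ge_abs _

theorem sup_sq_le (F : Polynomial ℤ) (θ : ℝ) :
    ‖Polynomial.aeval (zt θ) F‖ ^ 2 ≤ nsq F ^ 2 :=
  pow_le_pow_left₀ (norm_nonneg _) (sup_le F θ) 2

theorem continuous_aeval_zt (F : Polynomial ℤ) :
    Continuous (fun θ => ‖Polynomial.aeval (zt θ) F‖ ^ 2) := by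
  have h2 : Continuous (fun θ => Polynomial.aeval (zt θ) F) :=
    (Polynomial.continuous_aeval F).comp continuous_zt
  fun_prop

theorem wInt_split (m : ℕ) (a : ℝ) (ha : 0 < m + a) (P : Polynomial ℤ) :
    wInt (m + a) P = ∫ θ in (-Real.pi)..Real.pi,
      wt a θ * ‖Polynomial.aeval (zt θ) ((Polynomial.X - 1) ^ m * P)‖ ^ 2 := by
  unfold wInt
  apply intervalIntegral.integral_congr
  intro θ _
  simp only
  have h1 : ‖Polynomial.aeval (zt θ) ((Polynomial.X - 1) ^ m * P)‖ ^ 2 =
      (‖1 - zt θ‖ ^ 2) ^ m * ‖Polynomial.aeval (zt θ) P‖ ^ 2 := by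
    rw [map_mul, norm_mul, map_pow, norm_pow, map_sub, Polynomial.aeval_X, map_one,
      norm_sub_rev, mul_pow, ← pow_mul, ← pow_mul, mul_comm m 2]
  rw [h1]
  unfold wt
  have hz : ‖1 - Complex.exp (θ * Complex.I)‖ = ‖1 - zt θ‖ := rfl
  have hz2 : Polynomial.aeval (Complex.exp (θ * Complex.I)) P = Polynomial.aeval (zt θ) P := rfl
  rw [hz, hz2]
  rcases (norm_nonneg (1 - zt θ)).eq_or_lt with h0 | h0
  · rw [← h0]
    have h2 : (2 * (m + a)) ≠ 0 := by linarith
    rw [Real.zero_rpow h2]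
    rcases Nat.eq_zero_or_pos m with hm | hm
    · subst hm
      have h3 : 2 * a ≠ 0 := by
        push_cast at ha
        linarith
      rw [Real.zero_rpow h3]
      simp
    · rw [zero_pow two_ne_zero, zero_pow hm.ne']
      simp
  · have h2 : 2 * (m + a) = 2 * a + ((2 * m : ℕ) : ℝ) := by push_cast; ring
    rw [h2, Real.rpow_add h0, Real.rpow_natCast, pow_mul]
    ring

theorem int_wt_mul {a : ℝ} (ha : -(1 / 2) < a) (F : Polynomial ℤ) :
    IntervalIntegrable (fun θ => wt a θ * ‖Polynomial.aeval (zt θ) F‖ ^ 2) volume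
      (-Real.pi) Real.pi :=
  (int_wt ha).mul_continuousOn (continuous_aeval_zt F).continuousOn

theorem wInt_diff (m : ℕ) {a b : ℝ} (ha : -(1 / 2) < a) (hb : -(1 / 2) < b) (ha' : 0 < m + a)
    (hb' : 0 < m + b) (P : Polynomial ℤ) :
    |wInt (m + a) P - wInt (m + b) P| ≤ nsq ((Polynomial.X - 1) ^ m * P) ^ 2 * D a b := by
  rw [wInt_split m a ha', wInt_split m b hb',
    ← intervalIntegral.integral_sub (int_wt_mul ha _) (int_wt_mul hb _), ← Real.norm_eq_abs]
  unfold D
  rw [← intervalIntegral.integral_const_mul]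
  apply intervalIntegral.norm_integral_le_of_norm_le (by linarith [Real.pi_pos])
  · filter_upwards with θ _
    rw [← sub_mul, norm_mul, Real.norm_eq_abs, Real.norm_of_nonneg (by positivity), mul_comm]
    exact mul_le_mul_of_nonneg_right (sup_sq_le _ θ) (abs_nonneg _)
  · exact (((int_wt ha).sub (int_wt hb)).abs).const_mul _

/-- Case B: just below a natural number. -/
theorem nsq_le_below (m : ℕ) (hm : 1 ≤ m) {a : ℝ} (ha : -(1 / 2) < a) (ha0 : a ≤ 0)
    (P : Polynomial ℤ) :
    Real.pi * nsq ((Polynomial.X - 1) ^ m * P) ≤ wInt (m + a) P := by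
  have hm1 : (1 : ℝ) ≤ m := by exact_mod_cast hm
  rw [wInt_split m a (by linarith)]
  have h1 := integral_normsq ((Polynomial.X - 1) ^ m * P)
  have h2 : Real.pi * nsq ((Polynomial.X - 1) ^ m * P) = ∫ θ in (-Real.pi)..Real.pi,
      (1 / 2) * ‖Polynomial.aeval (zt θ) ((Polynomial.X - 1) ^ m * P)‖ ^ 2 := by
    rw [intervalIntegral.integral_const_mul, h1]
    ring
  rw [h2]
  apply intervalIntegral.integral_mono_on (by linarith [Real.pi_pos])
  · exact (continuous_const.mul (continuous_aeval_zt _)).intervalIntegrable _ _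
  · exact int_wt_mul ha _
  · intro θ _
    rcases (norm_nonneg (1 - zt θ)).eq_or_lt with h0 | h0
    · have h3 : ‖Polynomial.aeval (zt θ) ((Polynomial.X - 1) ^ m * P)‖ = 0 := by
        rw [map_mul, norm_mul, map_pow, norm_pow, map_sub, Polynomial.aeval_X, map_one,
          norm_sub_rev, ← h0, zero_pow (by omega), zero_mul]
      rw [h3]
      simp
    · apply mul_le_mul_of_nonneg_right _ (by positivity)
      unfold wt
      have h4 : ‖1 - Complex.exp (θ * Complex.I)‖ ≤ 2 := norm_le_two θ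
      have h0' : 0 < ‖1 - Complex.exp (θ * Complex.I)‖ := h0
      calc (1 / 2 : ℝ) = 2 ^ (-1 : ℝ) := by
            rw [Real.rpow_neg_one]; norm_num
        _ ≤ 2 ^ (2 * a) := Real.rpow_le_rpow_of_exponent_le (by norm_num) (by linarith)
        _ ≤ ‖1 - Complex.exp (θ * Complex.I)‖ ^ (2 * a) :=
            Real.rpow_le_rpow_of_nonpos h0' h4 (by linarith)

/-- the energy as a sum over the support -/
theorem wInt_energy (m : ℕ) {μ : ℝ} (hμ : 0 < μ) (P F : Polynomial ℤ)
    (hF : F = (Polynomial.X - 1) ^ m * P) :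
    wInt (m + μ) P = 2 * Real.pi * ∑ i ∈ F.support, ∑ j ∈ F.support,
        ((F.coeff i : ℝ) * F.coeff j) * wh μ (Int.natAbs (((i : ℕ) : ℤ) - ((j : ℕ) : ℤ))) := by
  rw [wInt_split m μ (by positivity), ← hF]
  have h1 := integral_expand (wt μ) (continuous_wt hμ) F 1
  simp only [pow_one, mul_one] at h1
  rw [h1]
  have hsub : F.support ⊆ Finset.range (F.natDegree + 1) := by
    intro i hi
    rw [Finset.mem_range]
    exact Nat.lt_succ_of_le (Polynomial.le_natDegree_of_mem_supp i hi)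
  have h2 : ∀ i j : ℕ, ((F.coeff i : ℝ) * F.coeff j) * (∫ θ in (-Real.pi)..Real.pi,
      wt μ θ * Real.cos ((Int.natAbs ((i : ℤ) - j) : ℕ) * θ)) =
      2 * Real.pi * (((F.coeff i : ℝ) * F.coeff j) * wh μ (Int.natAbs ((i : ℤ) - j))) := by
    intro i j
    unfold wh
    have hpi : Real.pi ≠ 0 := Real.pi_pos.ne'
    field_simp
  simp_rw [h2]
  simp_rw [← Finset.mul_sum]
  congr 1
  symm
  have h3 : ∀ i, ∑ j ∈ F.support,
      ((F.coeff i : ℝ) * F.coeff j) * wh μ (Int.natAbs ((i : ℤ) - j)) =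
      ∑ j ∈ Finset.range (F.natDegree + 1),
        ((F.coeff i : ℝ) * F.coeff j) * wh μ (Int.natAbs ((i : ℤ) - j)) := by
    intro i
    apply Finset.sum_subset hsub
    intro j _ hj
    rw [Polynomial.notMem_support_iff] at hj
    rw [hj]
    simp
  simp_rw [h3]
  apply Finset.sum_subset hsub
  intro i _ hi
  rw [Polynomial.notMem_support_iff] at hi
  rw [hi]
  simp

theorem nsq_support (F : Polynomial ℤ) : ∑ i ∈ F.support, (F.coeff i : ℝ) ^ 2 = nsq F := by
  unfold nsq
  apply Finset.sum_subset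
  · intro i hi
    rw [Finset.mem_range]
    exact Nat.lt_succ_of_le (Polynomial.le_natDegree_of_mem_supp i hi)
  · intro i _ hi
    rw [Polynomial.notMem_support_iff] at hi
    rw [hi]
    simp

/-- Case A: just above a natural number. -/
theorem energy_above (m : ℕ) {μ : ℝ} (hμ : 0 < μ) (hμ1 : μ ≤ 1) (P : Polynomial ℤ) :
    2 * Real.pi * (2 * ∑ i ∈ Finset.range ((Polynomial.X - 1) ^ m * P).support.card,
        tl μ (i + 1)) ≤ wInt (m + μ) P ∧
      2 * Real.pi * (2 * tl μ ((Polynomial.X - 1) ^ m * P).support.card *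
        nsq ((Polynomial.X - 1) ^ m * P)) ≤ wInt (m + μ) P := by
  have hpi := Real.pi_pos
  obtain ⟨h1, h2⟩ := energy_low hμ hμ1 ((Polynomial.X - 1) ^ m * P).support
    (fun i => ((Polynomial.X - 1) ^ m * P).coeff i) (fun i hi => Polynomial.mem_support_iff.mp hi)
  rw [wInt_energy m hμ P _ rfl, ← nsq_support]
  exact ⟨mul_le_mul_of_nonneg_left h1 (by positivity),
    mul_le_mul_of_nonneg_left h2 (by positivity)⟩

end Pool.Agent.MP658c
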