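import Pool.Agent.Lib.MP_658dbf_an_C.Compare

/-!
Continuity of the weighted infimum.
-/

set_option autoImplicit false

open MeasureTheory Set Filter Topology

namespace Pool.Agent.MP658c

open Pool.Agent.MP658dbf Pool.Agent.MP658q

/-- closed form of the tail sums -/
noncomputable def tf (x : ℝ) (k : ℕ) : ℝ :=
  a0 x / 2 * ∏ j ∈ Finset.range k, (((j : ℝ) + 1 - x) / ((j : ℝ) + 1 + x))

theorem tl_next {μ : ℝ} (hμ : 0 < μ) (k : ℕ) :
    tl μ (k + 1 + 1) = tl μ (k + 1) * (((k : ℝ) + 1 - μ) / ((k : ℝ) + 1 + μ)) := by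
  have h := kap_rec hμ (Nat.succ_ne_zero k)
  simp only [tl, Nat.succ_ne_zero, if_false]
  push_cast at h ⊢
  have h2 : (k : ℝ) + 1 + μ ≠ 0 := by positivity
  have h3 : ((k : ℝ) + 1 + 1 + μ) * kap μ (k + 1 + 1) = (k + 1 - μ) * kap μ (k + 1) := h
  rw [h3]
  field_simp

theorem tl_eq {μ : ℝ} (hμ : 0 < μ) (k : ℕ) : tl μ (k + 1) = tf μ k := by
  induction k with
  | zero =>
    unfold tf
    have h := tl_one hμ
    rw [wh_zero hμ] at h
    simp only [zero_add, Finset.range_zero, Finset.prod_empty, mul_one]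
    unfold a0
    linarith
  | succ k ih =>
    rw [tl_next hμ, ih]
    unfold tf
    rw [Finset.prod_range_succ]
    ring

theorem a0_cont {b : ℝ} (hb : 0 ≤ b) : ContinuousAt a0 b := by
  have hG : ∀ x : ℝ, 0 < x → ContinuousAt Real.Gamma x := by
    intro x hx
    refine (Real.differentiableAt_Gamma fun m hm => ?_).continuousAt
    have : (0 : ℝ) ≤ m := by positivity
    linarith
  unfold a0
  have h1 : ContinuousAt (fun x : ℝ => Real.Gamma (2 * x + 1)) b :=
    ContinuousAt.comp (f := fun x : ℝ => 2 * x + 1) (hG _ (by linarith)) (by fun_prop)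
  have h2 : ContinuousAt (fun x : ℝ => Real.Gamma (x + 1)) b :=
    ContinuousAt.comp (f := fun x : ℝ => x + 1) (hG _ (by linarith)) (by fun_prop)
  apply h1.div (h2.pow 2)
  have h3 : 0 < Real.Gamma (b + 1) := Real.Gamma_pos_of_pos (by linarith)
  exact (pow_pos h3 2).ne'

theorem tf_cont {b : ℝ} (hb : 0 ≤ b) (k : ℕ) : ContinuousAt (fun x => tf x k) b := by
  unfold tf
  apply ((a0_cont hb).div_const 2).mul
  apply tendsto_finsetProd
  intro j _
  have h : ContinuousAt (fun x : ℝ => ((j : ℝ) + 1 - x) / ((j : ℝ) + 1 + x)) b := by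
    apply ContinuousAt.div (by fun_prop) (by fun_prop)
    positivity
  exact h

theorem tf_low {b : ℝ} (hb : 0 ≤ b) (hb2 : b ≤ 1 / 2) (k : ℕ) :
    a0 b / 2 * (1 / (2 * k + 1)) ≤ tf b k := by
  unfold tf
  have h0 := a0_pos hb
  apply mul_le_mul_of_nonneg_left _ (by positivity)
  induction k with
  | zero => simp
  | succ k ih =>
    rw [Finset.prod_range_succ]
    have h1 : (2 * (k : ℝ) + 1) / (2 * k + 3) ≤ ((k : ℝ) + 1 - b) / ((k : ℝ) + 1 + b) := by
      rw [div_le_div_iff₀ (by positivity) (by positivity)]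
      have hk : (0 : ℝ) ≤ k := by positivity
      nlinarith
    have h2 : 1 / (2 * ((k + 1 : ℕ) : ℝ) + 1) =
        1 / (2 * (k : ℝ) + 1) * ((2 * (k : ℝ) + 1) / (2 * k + 3)) := by
      push_cast
      have e1 : 2 * (k : ℝ) + 1 ≠ 0 := by positivity
      have e2 : 2 * (k : ℝ) + 3 ≠ 0 := by positivity
      have e3 : 2 * ((k : ℝ) + 1) + 1 ≠ 0 := by positivity
      field_simp
      ring
    rw [h2]
    exact mul_le_mul ih h1 (by positivity) (le_trans (by positivity) ih)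

theorem tf_sum_atTop {b : ℝ} (hb : 0 ≤ b) (hb2 : b ≤ 1 / 2) (C : ℝ) :
    ∃ n : ℕ, C < ∑ i ∈ Finset.range n, tf b i := by
  have h0 := a0_pos hb
  have h1 := Real.tendsto_sum_range_one_div_nat_succ_atTop
  obtain ⟨n, hn⟩ := (h1.eventually_gt_atTop (4 * C / a0 b)).exists
  refine ⟨n, ?_⟩
  have h2 : ∑ i ∈ Finset.range n, a0 b / 4 * (1 / ((i : ℝ) + 1)) ≤
      ∑ i ∈ Finset.range n, tf b i := by
    apply Finset.sum_le_sum
    intro i _
    refine le_trans ?_ (tf_low hb hb2 i)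
    have h3 : 1 / (2 * ((i : ℝ) + 1)) ≤ 1 / (2 * (i : ℝ) + 1) :=
      one_div_le_one_div_of_le (by positivity) (by linarith)
    have h4 : a0 b / 4 * (1 / ((i : ℝ) + 1)) = a0 b / 2 * (1 / (2 * ((i : ℝ) + 1))) := by
      field_simp
      ring
    rw [h4]
    exact mul_le_mul_of_nonneg_left h3 (by positivity)
  rw [← Finset.mul_sum] at h2
  refine lt_of_lt_of_le ?_ h2
  rw [div_lt_iff₀ h0] at hn
  nlinarith

theorem bound_above (m : ℕ) {b : ℝ} (hb : 0 ≤ b) (hb2 : b ≤ 1 / 2) (C : ℝ) :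
    ∃ K : ℝ, ∀ᶠ μ in 𝓝 b, 0 < μ → ∀ P : Polynomial ℤ, wInt (m + μ) P ≤ C →
      nsq ((Polynomial.X - 1) ^ m * P) ≤ K := by
  have hpi := Real.pi_pos
  obtain ⟨n0, hn0⟩ := tf_sum_atTop hb hb2 (C / (4 * Real.pi))
  have hpos : 0 < tf b n0 := lt_of_lt_of_le (by
    have := a0_pos hb
    positivity) (tf_low hb hb2 n0)
  refine ⟨C / (2 * Real.pi * tf b n0), ?_⟩
  have hsum : ContinuousAt (fun x => ∑ i ∈ Finset.range n0, tf x i) b := by
    apply tendsto_finsetSum
    intro i _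
    exact tf_cont hb i
  have e1 := hsum.eventually_const_lt hn0
  have e2 := (tf_cont hb n0).eventually_const_lt (show tf b n0 / 2 < tf b n0 by linarith)
  have e3 : ∀ᶠ μ : ℝ in 𝓝 b, μ < 1 := eventually_lt_nhds (by linarith)
  filter_upwards [e1, e2, e3] with μ h1 h2 h3 hμ P hP
  obtain ⟨g1, g2⟩ := energy_above m hμ h3.le P
  set n := ((Polynomial.X - 1) ^ m * P).support.card with hn
  have hlt : n < n0 := by
    by_contra hge
    push Not at hge
    have h4 : ∑ i ∈ Finset.range n0, tl μ (i + 1) ≤ ∑ i ∈ Finset.range n, tl μ (i + 1) := by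
      apply Finset.sum_le_sum_of_subset_of_nonneg
      · exact Finset.range_mono hge
      · intro i _ _
        exact tl_nonneg hμ h3.le _
    have h5 : ∑ i ∈ Finset.range n0, tl μ (i + 1) = ∑ i ∈ Finset.range n0, tf μ i := by
      apply Finset.sum_congr rfl
      intro i _
      exact tl_eq hμ i
    rw [h5] at h4
    rw [div_lt_iff₀ (by positivity)] at h1
    nlinarith
  have h6 : tf b n0 / 2 ≤ tl μ n := by
    have h7 := tl_anti hμ h3.le (show n ≤ n0 + 1 by omega)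
    rw [tl_eq hμ] at h7
    linarith
  have h8 := nsq_nonneg ((Polynomial.X - 1) ^ m * P)
  rw [le_div_iff₀ (by positivity)]
  have h9 : tf b n0 / 2 * nsq ((Polynomial.X - 1) ^ m * P) ≤
      tl μ n * nsq ((Polynomial.X - 1) ^ m * P) := mul_le_mul_of_nonneg_right h6 h8
  nlinarith

theorem usc {l0 : ℝ} (hl0 : 0 < l0) {ε : ℝ} (hε : 0 < ε) :
    ∀ᶠ l in 𝓝 l0, wInf l ≤ wInf l0 + ε := by
  obtain ⟨x, ⟨P, hP, rfl⟩, hx⟩ := exists_lt_of_csInf_lt (s := {x : ℝ | ∃ P : Polynomial ℤ,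
    P.Monic ∧ x = wInt l0 P}) ⟨_, 1, Polynomial.monic_one, rfl⟩
    (show wInf l0 < wInf l0 + ε / 2 by linarith)
  have h1 : Tendsto (fun l => nsq ((Polynomial.X - 1) ^ 0 * P) ^ 2 * D l l0) (𝓝 l0) (𝓝 0) := by
    have h2 := (D_tendsto (show -(1 / 2) < l0 by linarith)).const_mul
      (nsq ((Polynomial.X - 1) ^ 0 * P) ^ 2)
    rwa [mul_zero] at h2
  filter_upwards [h1.eventually_lt_const (show (0 : ℝ) < ε / 2 by linarith),
    eventually_gt_nhds hl0] with l h3 h4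
  have h5 := wInt_diff 0 (show -(1 / 2) < l by linarith) (show -(1 / 2) < l0 by linarith)
    (by simpa using h4) (by simpa using hl0) P
  simp only [Nat.cast_zero, zero_add] at h5
  have h6 := wInf_le l P hP
  have h7 := le_abs_self (wInt l P - wInt l0 P)
  linarith

theorem lsc_of (m : ℕ) {l0 : ℝ} (hl0 : 0 < l0) (hb : -(1 / 2) < l0 - m) (p : ℝ → Prop) (K : ℝ)
    (h : ∀ᶠ l in 𝓝 l0, p l → ∀ P : Polynomial ℤ, wInt l P ≤ wInf l0 + 2 →
      nsq ((Polynomial.X - 1) ^ m * P) ≤ K) {ε : ℝ} (hε : 0 < ε) :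
    ∀ᶠ l in 𝓝 l0, p l → wInf l0 ≤ wInf l + ε := by
  have h1 : Tendsto (fun l => K ^ 2 * D (l - m) (l0 - m)) (𝓝 l0) (𝓝 0) := by
    have h2 : Tendsto (fun l => D (l - m) (l0 - m)) (𝓝 l0) (𝓝 0) :=
      (D_tendsto hb).comp (by
        have : Continuous (fun l : ℝ => l - m) := by fun_prop
        exact this.tendsto l0)
    have h3 := h2.const_mul (K ^ 2)
    rwa [mul_zero] at h3
  have e4 : ∀ᶠ l : ℝ in 𝓝 l0, -(1 / 2) < l - m := by
    have : ∀ᶠ l : ℝ in 𝓝 l0, -(1 / 2) + m < l := eventually_gt_nhds (by linarith)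
    filter_upwards [this] with l hl
    linarith
  filter_upwards [h, h1.eventually_lt_const (show (0 : ℝ) < ε / 2 by linarith),
    eventually_gt_nhds hl0, usc hl0 one_pos, e4] with l g1 g2 g3 g4 g5 hp
  have hmin : 0 < min 1 (ε / 2) := lt_min one_pos (by linarith)
  obtain ⟨x, ⟨P, hP, rfl⟩, hx⟩ := exists_lt_of_csInf_lt (s := {x : ℝ | ∃ P : Polynomial ℤ,
    P.Monic ∧ x = wInt l P}) ⟨_, 1, Polynomial.monic_one, rfl⟩
    (show wInf l < wInf l + min 1 (ε / 2) by linarith)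
  have h6 : wInt l P ≤ wInf l0 + 2 := by
    have := min_le_left 1 (ε / 2)
    linarith
  have h7 := g1 hp P h6
  have h8 := wInt_diff m g5 hb (by linarith) (by linarith) P
  have e1 : (m : ℝ) + (l - m) = l := by ring
  have e2 : (m : ℝ) + (l0 - m) = l0 := by ring
  rw [e1, e2] at h8
  have h9 : nsq ((Polynomial.X - 1) ^ m * P) ^ 2 ≤ K ^ 2 :=
    pow_le_pow_left₀ (nsq_nonneg _) h7 2
  have h10 := mul_le_mul_of_nonneg_right h9 (D_nonneg (l - m) (l0 - m))
  have h11 := wInf_le l0 P hP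
  have h12 := neg_abs_le (wInt l P - wInt l0 P)
  have h13 := min_le_right 1 (ε / 2)
  linarith

theorem lsc_above (m : ℕ) {l0 : ℝ} (hl0 : 0 < l0) (hb : 0 ≤ l0 - m) (hb2 : l0 - m ≤ 1 / 2)
    {ε : ℝ} (hε : 0 < ε) : ∀ᶠ l in 𝓝 l0, (m : ℝ) < l → wInf l0 ≤ wInf l + ε := by
  obtain ⟨K, hK⟩ := bound_above m hb hb2 (wInf l0 + 2)
  apply lsc_of m hl0 (by linarith) (fun l => (m : ℝ) < l) K _ hε
  have h1 : Tendsto (fun l : ℝ => l - m) (𝓝 l0) (𝓝 (l0 - m)) := by
    have : Continuous (fun l : ℝ => l - m) := by fun_prop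
    exact this.tendsto l0
  filter_upwards [h1.eventually hK] with l hl hlm P hP
  have e1 : (m : ℝ) + (l - m) = l := by ring
  rw [e1] at hl
  exact hl (by linarith) P hP

theorem lsc_below (m : ℕ) (hm : 1 ≤ m) {l0 : ℝ} (hl0 : 0 < l0) (hb : -(1 / 2) < l0 - m)
    {ε : ℝ} (hε : 0 < ε) : ∀ᶠ l in 𝓝 l0, l ≤ (m : ℝ) → wInf l0 ≤ wInf l + ε := by
  have hpi := Real.pi_pos
  apply lsc_of m hl0 hb (fun l => l ≤ (m : ℝ)) ((wInf l0 + 2) / Real.pi) _ hε
  have e4 : ∀ᶠ l : ℝ in 𝓝 l0, -(1 / 2) + m < l := eventually_gt_nhds (by linarith)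
  filter_upwards [e4] with l h1 h2 P hP
  have h3 := nsq_le_below m hm (show -(1 / 2) < l - m by linarith) (by linarith) P
  have e1 : (m : ℝ) + (l - m) = l := by ring
  rw [e1] at h3
  rw [le_div_iff₀ hpi]
  linarith

theorem lsc {l0 : ℝ} (hl0 : 0 < l0) {ε : ℝ} (hε : 0 < ε) :
    ∀ᶠ l in 𝓝 l0, wInf l0 ≤ wInf l + ε := by
  set m := ⌊l0⌋₊ with hm
  have h1 : (m : ℝ) ≤ l0 := Nat.floor_le hl0.le
  have h2 : l0 < m + 1 := Nat.lt_floor_add_one l0
  rcases h1.eq_or_lt with h | h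
  · have hm1 : 1 ≤ m := by
      by_contra hc
      have : m = 0 := by omega
      rw [this] at h
      simp at h
      linarith
    have ha := lsc_above m hl0 (by linarith) (by linarith) hε
    have hb := lsc_below m hm1 hl0 (by linarith) hε
    filter_upwards [ha, hb] with l h3 h4
    rcases lt_or_ge (m : ℝ) l with h5 | h5
    · exact h3 h5
    · exact h4 h5
  · rcases le_or_gt (l0 - m) (1 / 2) with h3 | h3
    · filter_upwards [lsc_above m hl0 (by linarith) h3 hε, eventually_gt_nhds h] with l h4 h5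
      exact h4 h5
    · have hb := lsc_below (m + 1) (by omega) hl0 (by push_cast; linarith) hε
      push_cast at hb
      filter_upwards [hb, eventually_lt_nhds h2] with l h4 h5
      exact h4 h5.le

theorem continuousAt_wInf {l0 : ℝ} (hl0 : 0 < l0) : ContinuousAt wInf l0 := by
  rw [ContinuousAt, Metric.tendsto_nhds]
  intro ε hε
  filter_upwards [usc hl0 (half_pos hε), lsc hl0 (half_pos hε)] with l h1 h2
  rw [Real.dist_eq, abs_lt]
  constructor <;> linarith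

end Pool.Agent.MP658c
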