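import Pool.Agent.Lib.MP_658dbf_an_C.Cont
import Pool.Agent.Lib.MP_658dbf_an_Q.NatVal

/-!
One-sided derivatives of the weighted infimum at the natural numbers.
-/

set_option autoImplicit false

open MeasureTheory Set Filter Topology

namespace Pool.Agent.MP658c

open Pool.Agent.MP658dbf Pool.Agent.MP658q

/-- the derivative in `l` of the integrand -/
noncomputable def dG (l : ℝ) (P : Polynomial ℤ) (θ : ℝ) : ℝ :=
  2 * Real.log ‖1 - zt θ‖ * (‖1 - zt θ‖ ^ (2 * l) * ‖Polynomial.aeval (zt θ) P‖ ^ 2)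

/-- the derivative of `l ↦ wInt l P` -/
noncomputable def dI (l : ℝ) (P : Polynomial ℤ) : ℝ := ∫ θ in (-Real.pi)..Real.pi, dG l P θ

theorem log_bound {x : ℝ} (h0 : 0 < x) (h2 : x ≤ 2) : |Real.log x * x| ≤ 2 := by
  rcases le_or_gt x 1 with h | h
  · exact (Real.abs_log_mul_self_lt x h0 h).le.trans (by norm_num)
  · have h3 : 0 ≤ Real.log x := Real.log_nonneg h.le
    have h4 : Real.log x ≤ x - 1 := Real.log_le_sub_one_of_pos h0
    rw [abs_of_nonneg (by positivity)]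
    nlinarith

theorem dG_bound {k : ℝ} {l : ℝ} (hl : 1 / 2 ≤ l) (hlk : l ≤ k + 1) (P : Polynomial ℤ) (θ : ℝ)
    (h0 : 0 < ‖1 - zt θ‖) : ‖dG l P θ‖ ≤ 4 * 2 ^ (2 * (k + 1)) * nsq P ^ 2 := by
  unfold dG
  set x := ‖1 - zt θ‖ with hx
  have h2 : x ≤ 2 := norm_le_two θ
  have h3 := log_bound h0 h2
  have h4 : x ^ (2 * l) = x * x ^ (2 * l - 1) := by
    rw [← Real.rpow_one_add' h0.le (by linarith)]
    congr 1
    ring
  have h5 : x ^ (2 * l - 1) ≤ 2 ^ (2 * (k + 1)) :=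
    (Real.rpow_le_rpow h0.le h2 (by linarith)).trans
      (Real.rpow_le_rpow_of_exponent_le (by norm_num) (by linarith))
  have h6 := sup_sq_le P θ
  have h7 : 0 ≤ x ^ (2 * l - 1) := by positivity
  rw [h4]
  have e : 2 * Real.log x * (x * x ^ (2 * l - 1) * ‖Polynomial.aeval (zt θ) P‖ ^ 2) =
      2 * (Real.log x * x) * (x ^ (2 * l - 1) * ‖Polynomial.aeval (zt θ) P‖ ^ 2) := by ring
  rw [e, norm_mul, norm_mul, Real.norm_eq_abs (Real.log x * x), Real.norm_of_nonneg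
    (show (0 : ℝ) ≤ 2 by norm_num), Real.norm_of_nonneg (by positivity)]
  calc 2 * |Real.log x * x| * (x ^ (2 * l - 1) * ‖Polynomial.aeval (zt θ) P‖ ^ 2)
      ≤ 2 * 2 * (2 ^ (2 * (k + 1)) * nsq P ^ 2) := by gcongr
    _ = 4 * 2 ^ (2 * (k + 1)) * nsq P ^ 2 := by ring

theorem measurable_norm : Measurable (fun θ => ‖1 - zt θ‖) := by
  apply Continuous.measurable
  have := continuous_zt
  fun_prop

theorem measurable_dG (l : ℝ) (P : Polynomial ℤ) : Measurable (dG l P) := by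
  unfold dG
  have h1 := measurable_norm
  have h2 : Measurable (fun θ => ‖Polynomial.aeval (zt θ) P‖ ^ 2) :=
    (continuous_aeval_zt P).measurable
  exact ((Real.measurable_log.comp h1).const_mul 2).mul ((h1.pow_const _).mul h2)

theorem ae_ne : ∀ᵐ θ : ℝ ∂volume, θ ≠ 0 := by
  rw [ae_iff]; simp

theorem deriv_wInt (P : Polynomial ℤ) {l0 : ℝ} (hl0 : 1 / 2 < l0) :
    IntervalIntegrable (dG l0 P) volume (-Real.pi) Real.pi ∧
      HasDerivAt (fun l => wInt l P) (dI l0 P) l0 := by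
  have hs : Ioo (1 / 2) (l0 + 1) ∈ 𝓝 l0 := Ioo_mem_nhds hl0 (by linarith)
  have h := intervalIntegral.hasDerivAt_integral_of_dominated_loc_of_deriv_le
    (F := fun (l : ℝ) (θ : ℝ) => ‖1 - zt θ‖ ^ (2 * l) * ‖Polynomial.aeval (zt θ) P‖ ^ 2)
    (F' := fun l θ => dG l P θ) (x₀ := l0) (a := -Real.pi) (b := Real.pi) (μ := volume)
    (bound := fun _ => 4 * 2 ^ (2 * (l0 + 1)) * nsq P ^ 2) hs ?_ ?_ ?_ ?_ ?_ ?_
  · exact h
  · filter_upwards with l
    exact ((measurable_norm.pow_const _).mul (continuous_aeval_zt P).measurable).aestronglyMeasurable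
  · exact (continuous_gQ P (show 0 ≤ l0 by linarith)).intervalIntegrable _ _
  · exact (measurable_dG l0 P).aestronglyMeasurable
  · filter_upwards [ae_ne] with θ hθ0 hθ l hl
    rw [uIoc_of_le (by linarith [Real.pi_pos])] at hθ
    exact dG_bound hl.1.le hl.2.le P θ (norm_pos_of hθ hθ0)
  · exact intervalIntegrable_const
  · filter_upwards [ae_ne] with θ hθ0 hθ l hl
    rw [uIoc_of_le (by linarith [Real.pi_pos])] at hθ
    have hpos := norm_pos_of hθ hθ0
    unfold dG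
    have h1 : HasDerivAt (fun l : ℝ => 2 * l) 2 l := by
      simpa using (hasDerivAt_id l).const_mul (2 : ℝ)
    have h2 := (h1.const_rpow hpos).mul_const (‖Polynomial.aeval (zt θ) P‖ ^ 2)
    have e : 2 * Real.log ‖1 - zt θ‖ *
        (‖1 - zt θ‖ ^ (2 * l) * ‖(Polynomial.aeval (zt θ)) P‖ ^ 2) =
        Real.log ‖1 - zt θ‖ * 2 * ‖1 - zt θ‖ ^ (2 * l) * ‖(Polynomial.aeval (zt θ)) P‖ ^ 2 := by
      ring
    rw [e]
    exact h2

/-- convexity in the parameter -/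
theorem wInt_convex (P : Polynomial ℤ) {l0 l : ℝ} (hl0 : 1 / 2 < l0) (hl : 0 ≤ l) :
    wInt l0 P + (l - l0) * dI l0 P ≤ wInt l P := by
  have h1 := (deriv_wInt P hl0).1
  have h2 : IntervalIntegrable (fun θ => ‖1 - zt θ‖ ^ (2 * l0) *
      ‖Polynomial.aeval (zt θ) P‖ ^ 2) volume (-Real.pi) Real.pi :=
    (continuous_gQ P (show 0 ≤ l0 by linarith)).intervalIntegrable _ _
  have h3 : IntervalIntegrable (fun θ => ‖1 - zt θ‖ ^ (2 * l) *
      ‖Polynomial.aeval (zt θ) P‖ ^ 2) volume (-Real.pi) Real.pi :=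
    (continuous_gQ P hl).intervalIntegrable _ _
  have e0 : wInt l0 P + (l - l0) * dI l0 P = ∫ θ in (-Real.pi)..Real.pi,
      (‖1 - zt θ‖ ^ (2 * l0) * ‖Polynomial.aeval (zt θ) P‖ ^ 2 + (l - l0) * dG l0 P θ) := by
    rw [intervalIntegral.integral_add h2 (h1.const_mul _), intervalIntegral.integral_const_mul]
    rfl
  rw [e0]
  apply intervalIntegral.integral_mono_ae (by linarith [Real.pi_pos]) (h2.add (h1.const_mul _)) h3
  filter_upwards [ae_ne] with θ hθ0
  by_cases hx : 0 < ‖1 - zt θ‖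
  · unfold dG
    set x := ‖1 - zt θ‖ with hxdef
    have h4 : x ^ (2 * l) = x ^ (2 * l0) * Real.exp (2 * (l - l0) * Real.log x) := by
      rw [Real.rpow_def_of_pos hx, Real.rpow_def_of_pos hx, ← Real.exp_add]
      congr 1
      ring
    rw [h4]
    have h5 := Real.add_one_le_exp (2 * (l - l0) * Real.log x)
    have h6 : 0 ≤ x ^ (2 * l0) * ‖Polynomial.aeval (zt θ) P‖ ^ 2 := by positivity
    have h7 := mul_le_mul_of_nonneg_left h5 h6
    have e1 : x ^ (2 * l0) * ‖Polynomial.aeval (zt θ) P‖ ^ 2 + (l - l0) *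
        (2 * Real.log x * (x ^ (2 * l0) * ‖Polynomial.aeval (zt θ) P‖ ^ 2)) =
        x ^ (2 * l0) * ‖Polynomial.aeval (zt θ) P‖ ^ 2 * (2 * (l - l0) * Real.log x + 1) := by
      ring
    have e2 : x ^ (2 * l0) * Real.exp (2 * (l - l0) * Real.log x) *
        ‖Polynomial.aeval (zt θ) P‖ ^ 2 = x ^ (2 * l0) * ‖Polynomial.aeval (zt θ) P‖ ^ 2 *
        Real.exp (2 * (l - l0) * Real.log x) := by ring
    rw [e1, e2]
    exact h7
  · have h4 : ‖1 - zt θ‖ = 0 := le_antisymm (not_lt.mp hx) (norm_nonneg _)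
    unfold dG
    rw [h4, Real.zero_rpow (by linarith : (2 * l0) ≠ 0)]
    simp
    positivity

end Pool.Agent.MP658c
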