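import Pool.Agent.Lib.MP_658dbf_an_C.Semi

/-!
One-sided derivatives everywhere; differentiability outside a countable set.
-/

set_option autoImplicit false

open MeasureTheory Set Filter Topology

namespace Pool.Agent.MP658c

open Pool.Agent.MP658dbf Pool.Agent.MP658q

theorem convex_near {l0 : ℝ} (hl0 : 0 < l0) : ∃ M : ℝ, ∃ ε : ℝ, 0 < ε ∧
    ConvexOn ℝ (Ioo (l0 - ε) (l0 + ε)) (fun w => M * w ^ 2 - wInf w) := by
  obtain ⟨M, ε, hε, h⟩ := semi hl0
  refine ⟨M, ε, hε, convex_Ioo _ _, ?_⟩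
  intro x hx y hy s t hs ht hst
  have h1 := h x y s t (by rw [abs_lt]; constructor <;> linarith [hx.1, hx.2])
    (by rw [abs_lt]; constructor <;> linarith [hy.1, hy.2]) hs ht hst
  simp only [smul_eq_mul]
  have e : M * (s * t * (x - y) ^ 2) =
      M * (s * x ^ 2) + M * (t * y ^ 2) - M * (s * x + t * y) ^ 2 := by
    have ht' : t = 1 - s := by linarith
    rw [ht']
    ring
  rw [e] at h1
  linarith

theorem one_sided {l0 : ℝ} (hl0 : 0 < l0) : ∃ r q : ℝ, HasDerivWithinAt wInf r (Ioi l0) l0 ∧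
    HasDerivWithinAt wInf q (Iio l0) l0 ∧ r ≤ q := by
  obtain ⟨M, ε, hε, h⟩ := convex_near hl0
  have hmem : l0 ∈ interior (Ioo (l0 - ε) (l0 + ε)) := by
    rw [interior_Ioo]
    exact ⟨by linarith, by linarith⟩
  have h1 := h.hasDerivWithinAt_rightDeriv_of_mem_interior hmem
  have h2 := h.hasDerivWithinAt_leftDeriv_of_mem_interior hmem
  have h3 := h.leftDeriv_le_rightDeriv_of_mem_interior hmem
  have hq : HasDerivAt (fun w : ℝ => M * w ^ 2) (M * (2 * l0)) l0 := by
    have := (hasDerivAt_pow 2 l0).const_mul M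
    simpa using this
  have e : wInf = fun w => M * w ^ 2 - (M * w ^ 2 - wInf w) := by
    funext w
    ring
  refine ⟨M * (2 * l0) - derivWithin (fun w => M * w ^ 2 - wInf w) (Ioi l0) l0,
    M * (2 * l0) - derivWithin (fun w => M * w ^ 2 - wInf w) (Iio l0) l0, ?_, ?_, by linarith⟩
  · have h4 : HasDerivWithinAt (fun w => M * w ^ 2 - (M * w ^ 2 - wInf w))
        (M * (2 * l0) - derivWithin (fun w => M * w ^ 2 - wInf w) (Ioi l0) l0) (Ioi l0) l0 :=
      hq.hasDerivWithinAt.sub h1
    rwa [← e] at h4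
  · have h4 : HasDerivWithinAt (fun w => M * w ^ 2 - (M * w ^ 2 - wInf w))
        (M * (2 * l0) - derivWithin (fun w => M * w ^ 2 - wInf w) (Iio l0) l0) (Iio l0) l0 :=
      hq.hasDerivWithinAt.sub h2
    rwa [← e] at h4

theorem countable_convex {a b : ℝ} {f : ℝ → ℝ} (h : ConvexOn ℝ (Ioo a b) f) :
    {x : ℝ | x ∈ Ioo a b ∧ ¬ DifferentiableAt ℝ f x}.Countable := by
  have hi : ∀ x, x ∈ Ioo a b → x ∈ interior (Ioo a b) := by
    intro x hx
    rw [interior_Ioo]
    exact hx
  apply Set.PairwiseDisjoint.countable_of_isOpen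
    (s := fun x => Ioo (derivWithin f (Iio x) x) (derivWithin f (Ioi x) x))
  · have key : ∀ x y : ℝ, x ∈ Ioo a b → y ∈ Ioo a b → x < y →
        Disjoint (Ioo (derivWithin f (Iio x) x) (derivWithin f (Ioi x) x))
          (Ioo (derivWithin f (Iio y) y) (derivWithin f (Ioi y) y)) := by
      intro x y hx hy hxy
      have h1 := h.rightDeriv_le_slope_of_mem_interior (hi x hx) hy hxy
      have h2 := h.slope_le_leftDeriv_of_mem_interior hx (hi y hy) hxy
      rw [Set.disjoint_left]
      intro z hz1 hz2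
      linarith [hz1.2, hz2.1]
    intro x hx y hy hxy
    rcases lt_or_gt_of_ne hxy with h1 | h1
    · exact key x y hx.1 hy.1 h1
    · exact (key y x hy.1 hx.1 h1).symm
  · intro x _
    exact isOpen_Ioo
  · intro x hx
    rw [nonempty_Ioo]
    have h1 := h.hasDerivWithinAt_rightDeriv_of_mem_interior (hi x hx.1)
    have h2 := h.hasDerivWithinAt_leftDeriv_of_mem_interior (hi x hx.1)
    refine lt_of_le_of_ne (h.leftDeriv_le_rightDeriv_of_mem_interior (hi x hx.1)) fun hne => ?_
    rw [← hne] at h1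
    apply hx.2
    have h3 : HasDerivAt f (derivWithin f (Iio x) x) x := by
      have h4 := h2.Iic_of_Iio.union h1.Ici_of_Ioi
      rwa [Iic_union_Ici, hasDerivWithinAt_univ] at h4
    exact h3.differentiableAt

theorem countable_bad : {l : ℝ | 0 < l ∧ ¬ DifferentiableAt ℝ wInf l}.Countable := by
  choose! M ε hε hconv using fun (l : ℝ) (hl : 0 < l) => convex_near hl
  obtain ⟨T, hT, hTc, hcov⟩ := TopologicalSpace.countable_cover_nhdsWithin
    (s := Ioi (0 : ℝ)) (f := fun x => Ioo (x - ε x) (x + ε x)) (by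
      intro x hx
      have h1 := hε x hx
      exact mem_nhdsWithin_of_mem_nhds (Ioo_mem_nhds (by linarith) (by linarith)))
  have hsub : {l : ℝ | 0 < l ∧ ¬ DifferentiableAt ℝ wInf l} ⊆
      ⋃ x ∈ T, {l : ℝ | l ∈ Ioo (x - ε x) (x + ε x) ∧
        ¬ DifferentiableAt ℝ (fun w => M x * w ^ 2 - wInf w) l} := by
    intro l hl
    have h1 := hcov hl.1
    simp only [mem_iUnion] at h1 ⊢
    obtain ⟨x, hx, hlx⟩ := h1
    refine ⟨x, hx, hlx, fun hd => hl.2 ?_⟩
    have h2 : DifferentiableAt ℝ (fun w : ℝ => M x * w ^ 2) l := by fun_prop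
    have h3 := h2.sub hd
    have e : wInf = fun w => M x * w ^ 2 - (M x * w ^ 2 - wInf w) := by
      funext w
      ring
    rw [e]
    exact h3
  refine Set.Countable.mono hsub ?_
  exact hTc.biUnion fun x hx => countable_convex (hconv x (hT hx))

end Pool.Agent.MP658c
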