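import Pool.Agent.Lib.MP_658dbf_an_C.Scale
import Pool.Agent.Lib.MP_658dbf_an_Q.NatVal

/-!
Non-zero slopes of ideal Prouhet-Tarry-Escott solutions.
-/

set_option autoImplicit false

open MeasureTheory Set Filter Topology

namespace Pool.Agent.MP658c

open Pool.Agent.MP658dbf Pool.Agent.MP658q

/-- the coefficient of the difference of two sets of exponents -/
def cf (A B : Finset ℕ) (i : ℕ) : ℤ := (if i ∈ A then 1 else 0) - (if i ∈ B then 1 else 0)

/-- the slope sum of the difference of two sets of exponents -/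
def phiQ (A B : Finset ℕ) : ℚ :=
  ∑ i ∈ A ∪ B, ∑ j ∈ A ∪ B,
    if i = j then 0 else ((cf A B i * cf A B j : ℤ) : ℚ) / (((i - j) + (j - i) : ℕ) : ℚ)

theorem abs_nat (i j : ℕ) : |(i : ℝ) - j| = (((i - j) + (j - i) : ℕ) : ℝ) := by
  rcases le_total i j with h | h
  · rw [Nat.sub_eq_zero_of_le h, zero_add, Nat.cast_sub h, abs_sub_comm, abs_of_nonneg]
    exact sub_nonneg.mpr (by exact_mod_cast h)
  · rw [Nat.sub_eq_zero_of_le h, add_zero, Nat.cast_sub h, abs_of_nonneg]
    exact sub_nonneg.mpr (by exact_mod_cast h)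

theorem Phi_dp (A B : Finset ℕ) : Phi (dp A B) = ((phiQ A B : ℚ) : ℝ) := by
  have hc : ∀ i, (dp A B).coeff i = cf A B i := fun i => dp_coeff A B i
  have hs : (dp A B).support ⊆ A ∪ B := by
    intro i hi
    rw [Polynomial.mem_support_iff, hc] at hi
    rw [Finset.mem_union]
    by_contra hn
    rw [not_or] at hn
    exact hi (by simp [cf, hn.1, hn.2])
  have hz : ∀ i, i ∉ (dp A B).support → ((dp A B).coeff i : ℝ) = 0 := by
    intro i hi
    rw [Polynomial.notMem_support_iff] at hi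
    rw [hi, Int.cast_zero]
  unfold Phi phiQ
  push_cast
  rw [Finset.sum_subset hs]
  · apply Finset.sum_congr rfl
    intro i _
    rw [Finset.sum_subset hs]
    · apply Finset.sum_congr rfl
      intro j _
      by_cases hij : i = j
      · simp [hij]
      · rw [if_neg hij, if_neg hij, hc, hc, abs_nat]
        push_cast
        rfl
    · intro j _ hj
      rw [hz j hj]
      simp
  · intro i _ hi
    rw [hz i hi]
    simp

theorem Phi_neg (F : Polynomial ℤ) : Phi (-F) = Phi F := by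
  unfold Phi
  rw [Polynomial.support_neg]
  apply Finset.sum_congr rfl
  intro i _
  apply Finset.sum_congr rfl
  intro j _
  rw [Polynomial.coeff_neg, Polynomial.coeff_neg]
  push_cast
  rw [neg_mul_neg]

theorem slope_of (k : ℕ) (hk : 1 ≤ k) (hv : wInf k = 4 * Real.pi * k) {F : Polynomial ℤ}
    (hF : F.Monic) (hd : (Polynomial.X - 1) ^ k ∣ F) (hn : nsq F ≤ 2 * (k : ℝ)) :
    -(2 * Real.pi) * Phi F ∈ Slopes k := by
  obtain ⟨P, rfl⟩ := hd
  have hm : ((Polynomial.X - 1 : Polynomial ℤ) ^ k).Monic := by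
    have h1 : (Polynomial.X - 1 : Polynomial ℤ).Monic := by
      have := Polynomial.monic_X_sub_C (1 : ℤ)
      simpa using this
    exact h1.pow k
  have hP : P.Monic := hm.of_mul_monic_left hF
  have hpi := Real.pi_pos
  refine ⟨P, hP, le_antisymm ?_ (wInf_le _ P hP), (dI_eq k hk P).symm⟩
  rw [wInt_nat, hv]
  calc 2 * Real.pi * nsq ((Polynomial.X - 1) ^ k * P) ≤ 2 * Real.pi * (2 * (k : ℝ)) :=
        mul_le_mul_of_nonneg_left hn (by positivity)
    _ = 4 * Real.pi * k := by ring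

theorem slope_dp (k : ℕ) (hk : k ∈ ({1, 2, 3, 4, 5, 6, 7, 8, 9, 10, 12} : Finset ℕ))
    (A B : Finset ℕ) (hAB : A ≠ B) (hA : A.card = k) (hB : B.card = k)
    (h : ∀ d < k, ∑ a ∈ A, a.descFactorial d = ∑ b ∈ B, b.descFactorial d) :
    -(2 * Real.pi) * ((phiQ A B : ℚ) : ℝ) ∈ Slopes k := by
  have hk1 : 1 ≤ k := by
    simp only [Finset.mem_insert, Finset.mem_singleton] at hk
    omega
  have hv := exact_nat k hk
  have hn : (A.card : ℝ) + B.card = 2 * (k : ℝ) := by rw [hA, hB]; ring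
  rw [← Phi_dp]
  rcases dp_monic hAB with h1 | h1
  · exact slope_of k hk1 hv h1 (dp_dvd' A B k h) ((dp_nsq A B).trans hn.le)
  · have h2 := slope_of k hk1 hv h1 (dp_dvd' B A k fun d hd => (h d hd).symm)
      ((dp_nsq B A).trans (by rw [add_comm]; exact hn.le))
    rwa [dp_swap, Phi_neg] at h2

theorem pos_of (k : ℕ) (hk : k ∈ ({1, 2, 3, 4, 5, 6, 7, 8, 9, 10, 12} : Finset ℕ))
    (A B : Finset ℕ) (hAB : A ≠ B) (hA : A.card = k) (hB : B.card = k)
    (h : ∀ d < k, ∑ a ∈ A, a.descFactorial d = ∑ b ∈ B, b.descFactorial d)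
    (hφ : phiQ A B < 0) : 0 < sSup (Slopes k) := by
  have hk1 : 1 ≤ k := by
    simp only [Finset.mem_insert, Finset.mem_singleton] at hk
    omega
  have h1 := le_csSup (slopes_bddAbove k hk1) (slope_dp k hk A B hAB hA hB h)
  have hφ' : ((phiQ A B : ℚ) : ℝ) < 0 := by exact_mod_cast hφ
  refine lt_of_lt_of_le ?_ h1
  nlinarith [mul_pos (mul_pos two_pos Real.pi_pos) (neg_pos.mpr hφ')]

theorem neg_of (k : ℕ) (hk : k ∈ ({1, 2, 3, 4, 5, 6, 7, 8, 9, 10, 12} : Finset ℕ))
    (A B : Finset ℕ) (hAB : A ≠ B) (hA : A.card = k) (hB : B.card = k)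
    (h : ∀ d < k, ∑ a ∈ A, a.descFactorial d = ∑ b ∈ B, b.descFactorial d)
    (hφ : 0 < phiQ A B) : sInf (Slopes k) < 0 := by
  have hk1 : 1 ≤ k := by
    simp only [Finset.mem_insert, Finset.mem_singleton] at hk
    omega
  have h1 := csInf_le (slopes_bddBelow k hk1) (slope_dp k hk A B hAB hA hB h)
  have hφ' : (0 : ℝ) < ((phiQ A B : ℚ) : ℝ) := by exact_mod_cast hφ
  refine lt_of_le_of_lt h1 ?_
  nlinarith [mul_pos (mul_pos two_pos Real.pi_pos) hφ']

theorem local_max (k : ℕ) (hk : 1 ≤ k) (h1 : sInf (Slopes k) < 0) (h2 : 0 < sSup (Slopes k)) :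
    ∃ ε : ℝ, 0 < ε ∧ ∀ l : ℝ, l ≠ k → |l - k| < ε → wInf l < wInf k := by
  have hr := (hasDerivWithinAt_iff_tendsto_slope' (by simp)).mp (right_deriv k hk)
  have hl := (hasDerivWithinAt_iff_tendsto_slope' (by simp)).mp (left_deriv k hk)
  have hr' := hr.eventually_lt_const h1
  have hl' := hl.eventually_const_lt h2
  rw [eventually_nhdsWithin_iff, Metric.eventually_nhds_iff] at hr' hl'
  obtain ⟨e1, he1, H1⟩ := hr'
  obtain ⟨e2, he2, H2⟩ := hl'
  refine ⟨min e1 e2, lt_min he1 he2, fun l hne hl => ?_⟩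
  rcases lt_or_gt_of_ne hne with h | h
  · have h3 := H2 (y := l) (by rw [Real.dist_eq]; exact hl.trans_le (min_le_right _ _)) h
    rw [slope_def_field] at h3
    have h4 : l - k < 0 := sub_neg.mpr h
    have h5 : wInf l - wInf k < 0 := by
      by_contra hc
      exact absurd h3 (not_lt.mpr (div_nonpos_of_nonneg_of_nonpos (not_lt.mp hc) h4.le))
    linarith
  · have h3 := H1 (y := l) (by rw [Real.dist_eq]; exact hl.trans_le (min_le_left _ _)) h
    rw [slope_def_field] at h3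
    have h4 : 0 < l - k := sub_pos.mpr h
    have h5 : wInf l - wInf k < 0 := by
      by_contra hc
      exact absurd h3 (not_lt.mpr (div_nonneg (not_lt.mp hc) h4.le))
    linarith

end Pool.Agent.MP658c
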