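import Pool.Agent.Lib.MP_658dbf_an_C.Deriv

/-!
One-sided derivatives of the weighted infimum at the natural numbers.
-/

set_option autoImplicit false

open MeasureTheory Set Filter Topology

namespace Pool.Agent.MP658c

open Pool.Agent.MP658dbf Pool.Agent.MP658q

/-- the slopes of the optimal polynomials at `k` -/
def Slopes (k : ℕ) : Set ℝ :=
  {x : ℝ | ∃ P : Polynomial ℤ, P.Monic ∧ wInt k P = wInf k ∧ x = dI k P}

theorem value_nat (k : ℕ) (hk : 1 ≤ k) (P : Polynomial ℤ) :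
    ∃ m : ℕ, wInt k P = 4 * Real.pi * m := by
  have h1 : 0 ≤ nsqZ ((Polynomial.X - 1) ^ k * P) := by
    unfold nsqZ
    exact Finset.sum_nonneg fun i _ => sq_nonneg _
  obtain ⟨v, hv⟩ := Int.eq_ofNat_of_zero_le h1
  have h2 : Even (v : ℤ) := by
    rw [← hv]
    exact nsqZ_even hk ⟨P, rfl⟩
  have h3 : Even v := by exact_mod_cast h2
  obtain ⟨m, hm⟩ := h3
  refine ⟨m, ?_⟩
  rw [wInt_nat, nsq_eq, hv, hm]
  push_cast
  ring

theorem opt_of_lt (k : ℕ) (hk : 1 ≤ k) {P : Polynomial ℤ} (hP : P.Monic)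
    (h : wInt k P < wInf k + 4 * Real.pi) : wInt k P = wInf k := by
  have hpi := Real.pi_pos
  obtain ⟨m, hm⟩ := value_nat k hk P
  obtain ⟨n, hn, _⟩ := nat_values k hk
  have h1 := wInf_le (k : ℝ) P hP
  rw [hm, hn] at h h1 ⊢
  have h2 : (m : ℝ) < n + 1 := by
    by_contra hc
    push Not at hc
    nlinarith
  have h3 : (n : ℝ) ≤ m := by
    by_contra hc
    push Not at hc
    nlinarith
  have h4 : m < n + 1 := by exact_mod_cast h2
  have h5 : n ≤ m := by exact_mod_cast h3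
  have h6 : m = n := by omega
  rw [h6]

theorem bound_near (k : ℕ) (hk : 1 ≤ k) (C : ℝ) : ∃ K : ℝ, 0 ≤ K ∧ ∀ᶠ l in 𝓝 (k : ℝ),
    ∀ P : Polynomial ℤ, wInt l P ≤ C → nsq ((Polynomial.X - 1) ^ k * P) ≤ K := by
  have hpi := Real.pi_pos
  obtain ⟨K1, hK1⟩ := bound_above k (le_refl (0 : ℝ)) (by norm_num) C
  refine ⟨max 0 (max K1 (C / Real.pi)), le_max_left _ _, ?_⟩
  have h1 : Tendsto (fun l : ℝ => l - k) (𝓝 (k : ℝ)) (𝓝 0) := by
    have : Continuous (fun l : ℝ => l - k) := by fun_prop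
    have h2 := this.tendsto (k : ℝ)
    simpa using h2
  have e4 : ∀ᶠ l : ℝ in 𝓝 (k : ℝ), -(1 / 2) + (k : ℝ) < l := eventually_gt_nhds (by linarith)
  filter_upwards [h1.eventually hK1, e4] with l g1 g2 P hP
  have e1 : (k : ℝ) + (l - k) = l := by ring
  rcases lt_or_ge (k : ℝ) l with h3 | h3
  · rw [e1] at g1
    exact (g1 (by linarith) P hP).trans ((le_max_left _ _).trans (le_max_right _ _))
  · have h4 := nsq_le_below k hk (show -(1 / 2) < l - k by linarith) (by linarith) P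
    rw [e1] at h4
    have h5 : nsq ((Polynomial.X - 1) ^ k * P) ≤ C / Real.pi := by
      rw [le_div_iff₀ hpi]
      linarith
    exact h5.trans ((le_max_right _ _).trans (le_max_right _ _))

theorem opt_near (k : ℕ) (hk : 1 ≤ k) : ∀ᶠ l in 𝓝 (k : ℝ), ∀ P : Polynomial ℤ, P.Monic →
    wInt l P ≤ wInf k + 1 → wInt k P = wInf k := by
  have hk1 : (1 : ℝ) ≤ k := by exact_mod_cast hk
  have hpi := Real.pi_gt_three
  obtain ⟨K, hK0, hK⟩ := bound_near k hk (wInf k + 1)
  have h1 : Tendsto (fun l : ℝ => K ^ 2 * D (l - k) 0) (𝓝 (k : ℝ)) (𝓝 0) := by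
    have h2 : Tendsto (fun l : ℝ => D (l - k) 0) (𝓝 (k : ℝ)) (𝓝 0) :=
      (D_tendsto (show -(1 / 2) < (0 : ℝ) by norm_num)).comp (by
        have : Continuous (fun l : ℝ => l - k) := by fun_prop
        have h2 := this.tendsto (k : ℝ)
        simpa using h2)
    have h3 := h2.const_mul (K ^ 2)
    rwa [mul_zero] at h3
  have e4 : ∀ᶠ l : ℝ in 𝓝 (k : ℝ), -(1 / 2) + (k : ℝ) < l := eventually_gt_nhds (by linarith)
  filter_upwards [hK, h1.eventually_lt_const (show (0 : ℝ) < 1 by norm_num), e4] with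
    l g1 g2 g3 P hP hPl
  have h4 := g1 P hPl
  have h5 := wInt_diff k (show -(1 / 2) < l - k by linarith) (show -(1 / 2) < (0 : ℝ) by norm_num)
    (by linarith) (by linarith) P
  have e1 : (k : ℝ) + (l - k) = l := by ring
  rw [e1, add_zero] at h5
  have h6 : nsq ((Polynomial.X - 1) ^ k * P) ^ 2 ≤ K ^ 2 :=
    pow_le_pow_left₀ (nsq_nonneg _) h4 2
  have h7 := mul_le_mul_of_nonneg_right h6 (D_nonneg (l - k) 0)
  have h8 := neg_abs_le (wInt l P - wInt k P)
  apply opt_of_lt k hk hP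
  linarith

theorem slopes_nonempty (k : ℕ) (hk : 1 ≤ k) : (Slopes k).Nonempty := by
  obtain ⟨m, h1, P, hP, h2⟩ := nat_values k hk
  exact ⟨dI k P, P, hP, by rw [h1, h2], rfl⟩

theorem slopes_abs (k : ℕ) (hk : 1 ≤ k) : ∃ M : ℝ, ∀ x ∈ Slopes k, |x| ≤ M := by
  have hk1 : (1 : ℝ) ≤ k := by exact_mod_cast hk
  have hpi := Real.pi_pos
  refine ⟨4 * (wInf k / (2 * Real.pi)) ^ 2 * (D (-(1 / 4)) 0 + D (1 / 4) 0), ?_⟩
  rintro x ⟨P, hP, ho, rfl⟩
  have hn : nsq ((Polynomial.X - 1) ^ k * P) = wInf k / (2 * Real.pi) := by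
    rw [← ho, wInt_nat]
    field_simp
  have h1 := wInt_diff k (show -(1 / 2) < (-(1 / 4) : ℝ) by norm_num)
    (show -(1 / 2) < (0 : ℝ) by norm_num) (by linarith) (by linarith) P
  have h2 := wInt_diff k (show -(1 / 2) < (1 / 4 : ℝ) by norm_num)
    (show -(1 / 2) < (0 : ℝ) by norm_num) (by linarith) (by linarith) P
  rw [add_zero, hn] at h1 h2
  have h3 := wInt_convex P (show 1 / 2 < (k : ℝ) by linarith)
    (show (0 : ℝ) ≤ k + -(1 / 4) by linarith)
  have h4 := wInt_convex P (show 1 / 2 < (k : ℝ) by linarith)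
    (show (0 : ℝ) ≤ k + 1 / 4 by linarith)
  have h5 := le_abs_self (wInt (k + -(1 / 4)) P - wInt k P)
  have h6 := le_abs_self (wInt (k + 1 / 4) P - wInt k P)
  have h7 : 0 ≤ (wInf k / (2 * Real.pi)) ^ 2 * D (-(1 / 4)) 0 :=
    mul_nonneg (sq_nonneg _) (D_nonneg _ _)
  have h8 : 0 ≤ (wInf k / (2 * Real.pi)) ^ 2 * D (1 / 4) 0 :=
    mul_nonneg (sq_nonneg _) (D_nonneg _ _)
  rw [abs_le]
  constructor <;> nlinarith

theorem slopes_bddBelow (k : ℕ) (hk : 1 ≤ k) : BddBelow (Slopes k) := by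
  obtain ⟨M, hM⟩ := slopes_abs k hk
  exact ⟨-M, fun x hx => (abs_le.mp (hM x hx)).1⟩

theorem slopes_bddAbove (k : ℕ) (hk : 1 ≤ k) : BddAbove (Slopes k) := by
  obtain ⟨M, hM⟩ := slopes_abs k hk
  exact ⟨M, fun x hx => (abs_le.mp (hM x hx)).2⟩

theorem near_min (l c : ℝ) (hc : 0 < c) : ∃ P : Polynomial ℤ, P.Monic ∧ wInt l P < wInf l + c := by
  obtain ⟨x, ⟨P, hP, rfl⟩, hx⟩ := exists_lt_of_csInf_lt (s := {x : ℝ | ∃ P : Polynomial ℤ,
    P.Monic ∧ x = wInt l P}) ⟨_, 1, Polynomial.monic_one, rfl⟩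
    (show wInf l < wInf l + c by linarith)
  exact ⟨P, hP, hx⟩

theorem right_deriv (k : ℕ) (hk : 1 ≤ k) :
    HasDerivWithinAt wInf (sInf (Slopes k)) (Ioi (k : ℝ)) k := by
  have hk1 : (1 : ℝ) ≤ k := by exact_mod_cast hk
  rw [hasDerivWithinAt_iff_tendsto_slope' (by simp)]
  rw [tendsto_order]
  constructor
  · intro a ha
    have hε : 0 < (sInf (Slopes k) - a) / 2 := by linarith
    set ε := (sInf (Slopes k) - a) / 2 with hεdef
    have e1 : ∀ᶠ l : ℝ in 𝓝 (k : ℝ), l < k + 1 / (2 * ε) :=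
      eventually_lt_nhds (by
        have : 0 < 1 / (2 * ε) := by positivity
        linarith)
    have e2 := usc (show (0 : ℝ) < k by linarith) (show (0 : ℝ) < 1 / 2 by norm_num)
    filter_upwards [self_mem_nhdsWithin, nhdsWithin_le_nhds (opt_near k hk),
      nhdsWithin_le_nhds e1, nhdsWithin_le_nhds e2] with l g0 g1 g2 g3
    have hlk : 0 < l - k := by
      have : (k : ℝ) < l := g0
      linarith
    obtain ⟨P, hP, hPl⟩ := near_min l ((l - k) * ε) (by positivity)
    have h1 : (l - k) * ε < 1 / 2 := by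
      have h2 : l - k < 1 / (2 * ε) := by linarith
      have h3 := mul_lt_mul_of_pos_right h2 hε
      have h4 : 1 / (2 * ε) * ε = 1 / 2 := by field_simp
      linarith
    have ho := g1 P hP (by linarith)
    have h5 : sInf (Slopes k) ≤ dI k P :=
      csInf_le (slopes_bddBelow k hk) ⟨P, hP, ho, rfl⟩
    have h6 := wInt_convex P (show 1 / 2 < (k : ℝ) by linarith) (show (0 : ℝ) ≤ l by linarith)
    rw [ho] at h6
    have h7 := mul_le_mul_of_nonneg_left h5 hlk.le
    rw [slope_def_field, lt_div_iff₀ hlk]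
    have h8 : a * (l - k) = (l - k) * sInf (Slopes k) - 2 * ((l - k) * ε) := by
      rw [hεdef]; ring
    have h9 : 0 < (l - k) * ε := by positivity
    linarith
  · intro a ha
    obtain ⟨x, ⟨P, hP, ho, rfl⟩, hx⟩ := exists_lt_of_csInf_lt (slopes_nonempty k hk) ha
    have hd := ((deriv_wInt P (show 1 / 2 < (k : ℝ) by linarith)).2.hasDerivWithinAt
      (s := Ioi (k : ℝ)))
    rw [hasDerivWithinAt_iff_tendsto_slope' (by simp)] at hd
    filter_upwards [self_mem_nhdsWithin, hd.eventually_lt_const hx] with l g0 g1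
    have hlk : 0 < l - k := by
      have : (k : ℝ) < l := g0
      linarith
    refine lt_of_le_of_lt ?_ g1
    rw [slope_def_field, slope_def_field, ho]
    apply div_le_div_of_nonneg_right _ hlk.le
    have := wInf_le l P hP
    linarith

theorem left_deriv (k : ℕ) (hk : 1 ≤ k) :
    HasDerivWithinAt wInf (sSup (Slopes k)) (Iio (k : ℝ)) k := by
  have hk1 : (1 : ℝ) ≤ k := by exact_mod_cast hk
  rw [hasDerivWithinAt_iff_tendsto_slope' (by simp)]
  rw [tendsto_order]
  constructor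
  · intro a ha
    obtain ⟨x, ⟨P, hP, ho, rfl⟩, hx⟩ := exists_lt_of_lt_csSup (slopes_nonempty k hk) ha
    have hd := ((deriv_wInt P (show 1 / 2 < (k : ℝ) by linarith)).2.hasDerivWithinAt
      (s := Iio (k : ℝ)))
    rw [hasDerivWithinAt_iff_tendsto_slope' (by simp)] at hd
    filter_upwards [self_mem_nhdsWithin, hd.eventually_const_lt hx] with l g0 g1
    have hlk : l - k < 0 := by
      have : l < (k : ℝ) := g0
      linarith
    refine lt_of_lt_of_le g1 ?_
    rw [slope_def_field, slope_def_field, ho]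
    apply div_le_div_of_nonpos_of_le hlk.le
    have := wInf_le l P hP
    linarith
  · intro a ha
    have hε : 0 < (a - sSup (Slopes k)) / 2 := by linarith
    set ε := (a - sSup (Slopes k)) / 2 with hεdef
    have e1 : ∀ᶠ l : ℝ in 𝓝 (k : ℝ), k - 1 / (2 * ε) < l :=
      eventually_gt_nhds (by
        have : 0 < 1 / (2 * ε) := by positivity
        linarith)
    have e2 := usc (show (0 : ℝ) < k by linarith) (show (0 : ℝ) < 1 / 2 by norm_num)
    have e3 : ∀ᶠ l : ℝ in 𝓝 (k : ℝ), 0 < l := eventually_gt_nhds (by linarith)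
    filter_upwards [self_mem_nhdsWithin, nhdsWithin_le_nhds (opt_near k hk),
      nhdsWithin_le_nhds e1, nhdsWithin_le_nhds e2, nhdsWithin_le_nhds e3] with l g0 g1 g2 g3 g4
    have hlk : 0 < k - l := by
      have : l < (k : ℝ) := g0
      linarith
    obtain ⟨P, hP, hPl⟩ := near_min l ((k - l) * ε) (by positivity)
    have h1 : (k - l) * ε < 1 / 2 := by
      have h2 : k - l < 1 / (2 * ε) := by linarith
      have h3 := mul_lt_mul_of_pos_right h2 hε
      have h4 : 1 / (2 * ε) * ε = 1 / 2 := by field_simp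
      linarith
    have ho := g1 P hP (by linarith)
    have h5 : dI k P ≤ sSup (Slopes k) :=
      le_csSup (slopes_bddAbove k hk) ⟨P, hP, ho, rfl⟩
    have h6 := wInt_convex P (show 1 / 2 < (k : ℝ) by linarith) g4.le
    rw [ho] at h6
    have h7 := mul_le_mul_of_nonneg_left h5 hlk.le
    have e5 : slope wInf k l = (wInf k - wInf l) / (k - l) := by
      rw [slope_def_field, ← neg_div_neg_eq]
      congr 1 <;> ring
    rw [e5, div_lt_iff₀ hlk]
    have h8 : a * (k - l) = (k - l) * sSup (Slopes k) + 2 * ((k - l) * ε) := by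
      rw [hεdef]; ring
    have h9 : 0 < (k - l) * ε := by positivity
    have h10 : (l - k) * dI k P = -((k - l) * dI k P) := by ring
    linarith

end Pool.Agent.MP658c
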