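import Pool.Agent.Lib.MP_658dbf_an_C.Ideals

/-!
Slopes of both signs from ideal Prouhet-Tarry-Escott solutions.
-/

set_option autoImplicit false

open MeasureTheory Set Filter Topology

namespace Pool.Agent.MP658c

open Pool.Agent.MP658dbf Pool.Agent.MP658q

theorem pos1 : 0 < sSup (Slopes 1) :=
  pos_of 1 (by decide)
    {0}
    {1}
    (by decide) (by decide) (by decide) (by decide +kernel) (by decide +kernel)

theorem pos2 : 0 < sSup (Slopes 2) :=
  pos_of 2 (by decide)
    {0, 3}
    {1, 2}
    (by decide) (by decide) (by decide) (by decide +kernel) (by decide +kernel)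

theorem pos3 : 0 < sSup (Slopes 3) :=
  pos_of 3 (by decide)
    {0, 4, 5}
    {1, 2, 6}
    (by decide) (by decide) (by decide) (by decide +kernel) (by decide +kernel)

theorem pos4 : 0 < sSup (Slopes 4) :=
  pos_of 4 (by decide)
    {0, 4, 7, 11}
    {1, 2, 9, 10}
    (by decide) (by decide) (by decide) (by decide +kernel) (by decide +kernel)

theorem pos5 : 0 < sSup (Slopes 5) :=
  pos_of 5 (by decide)
    {0, 4, 8, 16, 17}
    {1, 2, 10, 14, 18}
    (by decide) (by decide) (by decide) (by decide +kernel) (by decide +kernel)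

theorem pos6 : 0 < sSup (Slopes 6) :=
  pos_of 6 (by decide)
    {0, 5, 6, 16, 17, 22}
    {1, 2, 10, 12, 20, 21}
    (by decide) (by decide) (by decide) (by decide +kernel) (by decide +kernel)

theorem pos7 : 0 < sSup (Slopes 7) :=
  pos_of 7 (by decide)
    {0, 18, 27, 58, 64, 89, 101}
    {1, 13, 38, 44, 75, 84, 102}
    (by decide) (by decide) (by decide) (by decide +kernel) (by decide +kernel)

theorem pos8 : 0 < sSup (Slopes 8) :=
  pos_of 8 (by decide)
    {0, 4, 9, 23, 27, 41, 46, 50}
    {1, 2, 11, 20, 30, 39, 48, 49}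
    (by decide) (by decide) (by decide) (by decide +kernel) (by decide +kernel)

theorem pos9 : 0 < sSup (Slopes 9) :=
  pos_of 9 (by decide)
    {0, 24, 30, 83, 86, 133, 157, 181, 197}
    {1, 17, 41, 65, 112, 115, 168, 174, 198}
    (by decide) (by decide) (by decide) (by decide +kernel) (by decide +kernel)

theorem pos10 : 0 < sSup (Slopes 10) :=
  pos_of 10 (by decide)
    {0, 63, 149, 326, 412, 618, 704, 881, 967, 1030}
    {7, 44, 184, 270, 497, 533, 760, 846, 986, 1023}
    (by decide) (by decide) (by decide) (by decide +kernel) (by decide +kernel)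

theorem pos12 : 0 < sSup (Slopes 12) :=
  pos_of 12 (by decide)
    {0, 11, 24, 65, 90, 129, 173, 212, 237, 278, 291, 302}
    {3, 5, 30, 57, 104, 116, 186, 198, 245, 272, 297, 299}
    (by decide) (by decide) (by decide) (by decide +kernel) (by decide +kernel)

theorem neg2 : sInf (Slopes 2) < 0 :=
  neg_of 2 (by decide)
    {0, 9}
    {4, 5}
    (by decide) (by decide) (by decide) (by decide +kernel) (by decide +kernel)

theorem neg3 : sInf (Slopes 3) < 0 :=
  neg_of 3 (by decide)
    {0, 10, 11}
    {3, 4, 14}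
    (by decide) (by decide) (by decide) (by decide +kernel) (by decide +kernel)

theorem neg4 : sInf (Slopes 4) < 0 :=
  neg_of 4 (by decide)
    {0, 8, 9, 17}
    {2, 3, 14, 15}
    (by decide) (by decide) (by decide) (by decide +kernel) (by decide +kernel)

theorem neg5 : sInf (Slopes 5) < 0 :=
  neg_of 5 (by decide)
    {0, 19, 20, 44, 52}
    {2, 10, 34, 35, 54}
    (by decide) (by decide) (by decide) (by decide +kernel) (by decide +kernel)

theorem neg6 : sInf (Slopes 6) < 0 :=
  neg_of 6 (by decide)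
    {0, 8, 11, 27, 30, 38}
    {2, 3, 18, 20, 35, 36}
    (by decide) (by decide) (by decide) (by decide +kernel) (by decide +kernel)

theorem neg7 : sInf (Slopes 7) < 0 :=
  neg_of 7 (by decide)
    {0, 46, 48, 142, 159, 227, 239}
    {7, 19, 87, 104, 198, 200, 246}
    (by decide) (by decide) (by decide) (by decide +kernel) (by decide +kernel)

theorem neg8 : sInf (Slopes 8) < 0 :=
  neg_of 8 (by decide)
    {0, 9, 10, 27, 41, 58, 59, 68}
    {2, 3, 19, 20, 48, 49, 65, 66}
    (by decide) (by decide) (by decide) (by decide +kernel) (by decide +kernel)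

theorem neg10 : sInf (Slopes 10) < 0 :=
  neg_of 10 (by decide)
    {0, 12, 125, 213, 214, 412, 413, 501, 614, 626}
    {5, 6, 133, 182, 242, 384, 444, 493, 620, 621}
    (by decide) (by decide) (by decide) (by decide +kernel) (by decide +kernel)

theorem pos_all (k : ℕ) (hk : k ∈ ({1, 2, 3, 4, 5, 6, 7, 8, 9, 10, 12} : Finset ℕ)) :
    0 < sSup (Slopes k) := by
  simp only [Finset.mem_insert, Finset.mem_singleton] at hk
  rcases hk with h | h | h | h | h | h | h | h | h | h | h <;> subst h
  · exact pos1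
  · exact pos2
  · exact pos3
  · exact pos4
  · exact pos5
  · exact pos6
  · exact pos7
  · exact pos8
  · exact pos9
  · exact pos10
  · exact pos12

theorem neg_all (k : ℕ) (hk : k ∈ ({2, 3, 4, 5, 6, 7, 8, 10} : Finset ℕ)) :
    sInf (Slopes k) < 0 := by
  simp only [Finset.mem_insert, Finset.mem_singleton] at hk
  rcases hk with h | h | h | h | h | h | h | h <;> subst h
  · exact neg2
  · exact neg3
  · exact neg4
  · exact neg5
  · exact neg6
  · exact neg7
  · exact neg8
  · exact neg10

theorem not_diff (k : ℕ) (hk : k ∈ ({1, 2, 3, 4, 5, 6, 7, 8, 9, 10, 12} : Finset ℕ)) :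
    ¬ DifferentiableAt ℝ wInf k := by
  have hk1 : 1 ≤ k := by
    simp only [Finset.mem_insert, Finset.mem_singleton] at hk
    omega
  intro h
  have h1 := (diff_iff k hk1).mp h
  have h2 := pos_all k hk
  have h3 : sSup (Slopes k) ≤ 0 := csSup_le (slopes_nonempty k hk1) fun x hx => (h1 x hx).le
  exact absurd h2 (not_lt.mpr h3)

theorem local_max_all (k : ℕ) (hk : k ∈ ({2, 3, 4, 5, 6, 7, 8, 10} : Finset ℕ)) :
    ∃ ε : ℝ, 0 < ε ∧ ∀ l : ℝ, l ≠ k → |l - k| < ε → wInf l < wInf k := by
  have hk1 : 1 ≤ k ∧ k ∈ ({1, 2, 3, 4, 5, 6, 7, 8, 9, 10, 12} : Finset ℕ) := by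
    simp only [Finset.mem_insert, Finset.mem_singleton] at hk ⊢
    omega
  exact local_max k hk1.1 (neg_all k hk) (pos_all k hk1.2)

end Pool.Agent.MP658c
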