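import Pool.Agent.Lib.MP_658dbf_an_C.Kink

/-!
The infimum is locally Lipschitz; near a natural number only optimal polynomials matter.
-/

set_option autoImplicit false

open MeasureTheory Set Filter Topology

namespace Pool.Agent.MP658c

open Pool.Agent.MP658dbf Pool.Agent.MP658q

theorem exp_diff (y z : ℝ) : |Real.exp y - Real.exp z| ≤
    |y - z| * (Real.exp y + Real.exp z) := by
  have key : ∀ u v : ℝ, v ≤ u → |Real.exp u - Real.exp v| ≤
      |u - v| * (Real.exp u + Real.exp v) := by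
    intro u v h
    have h1 : 0 ≤ Real.exp u - Real.exp v := sub_nonneg.mpr (Real.exp_le_exp.mpr h)
    rw [abs_of_nonneg h1, abs_of_nonneg (sub_nonneg.mpr h)]
    have h2 := Real.add_one_le_exp (v - u)
    have h3 : Real.exp v = Real.exp u * Real.exp (v - u) := by
      rw [← Real.exp_add]
      ring_nf
    have h4 := Real.exp_pos u
    have h5 := Real.exp_pos v
    have h6 : Real.exp u - Real.exp v ≤ (u - v) * Real.exp u := by
      rw [h3]
      nlinarith
    nlinarith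
  rcases le_total z y with h | h
  · exact key y z h
  · rw [abs_sub_comm, abs_sub_comm y z, add_comm]
    exact key z y h

theorem log_rpow {x t η : ℝ} (h0 : 0 < x) (h2 : x ≤ 2) (hη : 0 < η) (ht : 2 * η ≤ t)
    (ht4 : t ≤ 4) : |Real.log x| * x ^ t ≤ 1 / (2 * η) + 16 := by
  have hη' : 0 < 1 / (2 * η) := by positivity
  have ht0 : 0 < t := by linarith
  rcases le_or_gt x 1 with h | h
  · have h3 := Real.abs_log_mul_self_rpow_lt x t h0 h ht0
    rw [abs_mul, abs_of_pos (Real.rpow_pos_of_pos h0 t)] at h3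
    have h4 : 1 / t ≤ 1 / (2 * η) := one_div_le_one_div_of_le (by positivity) ht
    linarith
  · have h3 : 0 ≤ Real.log x := Real.log_nonneg h.le
    have h4 : Real.log x ≤ 1 := by
      have := Real.log_le_sub_one_of_pos h0
      linarith
    have h5 : x ^ t ≤ 16 := by
      calc x ^ t ≤ 2 ^ t := Real.rpow_le_rpow h0.le h2 ht0.le
        _ ≤ 2 ^ (4 : ℝ) := Real.rpow_le_rpow_of_exponent_le (by norm_num) ht4
        _ = 16 := by norm_num
    have h6 : 0 < x ^ t := Real.rpow_pos_of_pos h0 t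
    rw [abs_of_nonneg h3]
    nlinarith

theorem D_lip {b : ℝ} (hb : -(1 / 2) < b) : ∃ L : ℝ, 0 ≤ L ∧ ∃ ε : ℝ, 0 < ε ∧
    ∀ a a' : ℝ, |a - b| < ε → |a' - b| < ε → -(1 / 2) < a ∧ -(1 / 2) < a' ∧
      D a a' ≤ L * |a - a'| := by
  set η : ℝ := min 1 ((b + 1 / 2) / 4) with hη
  have hη0 : 0 < η := lt_min one_pos (by linarith)
  have hη1 : η ≤ 1 / 2 ∨ η ≤ 1 := Or.inr (min_le_left _ _)
  have hη2 : η ≤ (b + 1 / 2) / 4 := min_le_right _ _
  have hη3 : η ≤ 1 := min_le_left _ _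
  set c : ℝ := b - 2 * (η / 2) - η / 2 with hc
  have hc0 : -(1 / 2) < c := by rw [hc]; linarith
  have hI := int_wt hc0
  set W : ℝ := ∫ θ in (-Real.pi)..Real.pi, wt c θ with hW
  have hW0 : 0 ≤ W := by
    rw [hW]
    apply intervalIntegral.integral_nonneg (by linarith [Real.pi_pos])
    intro θ _
    exact wt_nonneg c θ
  set M : ℝ := 1 / (2 * (η / 2)) + 16 with hM
  have hM0 : 0 ≤ M := by positivity
  refine ⟨4 * M * W, by positivity, η / 2, by linarith, fun a a' ha ha' => ?_⟩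
  rw [abs_lt] at ha ha'
  refine ⟨by linarith, by linarith, ?_⟩
  have e : 4 * M * W * |a - a'| = ∫ θ in (-Real.pi)..Real.pi, 4 * M * |a - a'| * wt c θ := by
    rw [intervalIntegral.integral_const_mul, ← hW]
    ring
  rw [e]
  unfold D
  have hae : ∀ᵐ θ : ℝ ∂volume, θ ≠ 0 := ae_ne
  have ha1 : -(1 / 2) < a := by linarith
  have ha1' : -(1 / 2) < a' := by linarith
  apply intervalIntegral.integral_mono_ae_restrict (by linarith [Real.pi_pos])
    (((int_wt ha1).sub (int_wt ha1')).abs) (hI.const_mul _)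
  rw [EventuallyLE, ae_restrict_iff' measurableSet_Icc]
  have hae2 : ∀ᵐ θ : ℝ ∂volume, θ ≠ -Real.pi := by
    rw [ae_iff]; simp
  filter_upwards [hae, hae2] with θ hθ0 hθ1 hθ
  have hpos : 0 < ‖1 - zt θ‖ := norm_pos_of ⟨lt_of_le_of_ne hθ.1 (Ne.symm hθ1), hθ.2⟩ hθ0
  have hle := norm_le_two θ
  have hw : ∀ s : ℝ, wt s θ = Real.exp (2 * s * Real.log ‖1 - zt θ‖) := by
    intro s
    unfold wt
    change ‖1 - zt θ‖ ^ (2 * s) = _
    rw [Real.rpow_def_of_pos hpos, mul_comm]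
  have h1 := exp_diff (2 * a * Real.log ‖1 - zt θ‖) (2 * a' * Real.log ‖1 - zt θ‖)
  rw [← hw, ← hw] at h1
  have h2 : |2 * a * Real.log ‖1 - zt θ‖ - 2 * a' * Real.log ‖1 - zt θ‖| =
      2 * |a - a'| * |Real.log ‖1 - zt θ‖| := by
    rw [← sub_mul, ← mul_sub, abs_mul, abs_mul, abs_of_pos (two_pos : (0 : ℝ) < 2)]
  rw [h2] at h1
  have hs : ∀ s : ℝ, c + η / 2 ≤ s → s ≤ c + 2 →
      |Real.log ‖1 - zt θ‖| * wt s θ ≤ M * wt c θ := by
    intro s hs1 hs2
    have h3 := log_rpow hpos hle (show 0 < η / 2 by linarith)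
      (show 2 * (η / 2) ≤ 2 * (s - c) by linarith) (by linarith)
    have h4 : wt s θ = ‖1 - zt θ‖ ^ (2 * (s - c)) * wt c θ := by
      unfold wt
      change ‖1 - zt θ‖ ^ (2 * s) = _ * ‖1 - zt θ‖ ^ (2 * c)
      rw [← Real.rpow_add hpos]
      congr 1
      ring
    rw [h4, ← mul_assoc]
    exact mul_le_mul_of_nonneg_right h3 (wt_nonneg c θ)
  have h5 := hs a (by linarith) (by linarith)
  have h6 := hs a' (by linarith) (by linarith)
  have h7 := abs_nonneg (a - a')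
  calc |wt a θ - wt a' θ| ≤ 2 * |a - a'| * |Real.log ‖1 - zt θ‖| * (wt a θ + wt a' θ) := h1
    _ = 2 * |a - a'| * (|Real.log ‖1 - zt θ‖| * wt a θ + |Real.log ‖1 - zt θ‖| * wt a' θ) := by
        ring
    _ ≤ 2 * |a - a'| * (M * wt c θ + M * wt c θ) :=
        mul_le_mul_of_nonneg_left (add_le_add h5 h6) (by positivity)
    _ = 4 * M * |a - a'| * wt c θ := by ring

theorem bound_loc {l0 : ℝ} (hl0 : 0 < l0) (C : ℝ) : ∃ (m : ℕ) (K : ℝ), -(1 / 2) < l0 - m ∧
    ∀ᶠ l in 𝓝 l0, ∀ P : Polynomial ℤ, wInt l P ≤ C →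
      nsq ((Polynomial.X - 1) ^ m * P) ≤ K := by
  have hpi := Real.pi_pos
  set m := ⌊l0⌋₊ with hm
  have h1 : (m : ℝ) ≤ l0 := Nat.floor_le hl0.le
  have h2 : l0 < m + 1 := Nat.lt_floor_add_one l0
  rcases h1.eq_or_lt with h | h
  · have hm1 : 1 ≤ m := by
      by_contra hc
      have : m = 0 := by omega
      rw [this] at h
      simp at h
      linarith
    obtain ⟨K, _, hK⟩ := bound_near m hm1 C
    rw [h] at hK
    exact ⟨m, K, by linarith, hK⟩
  · rcases le_or_gt (l0 - m) (1 / 2) with h3 | h3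
    · obtain ⟨K, hK⟩ := bound_above m (show 0 ≤ l0 - m by linarith) h3 C
      refine ⟨m, K, by linarith, ?_⟩
      have h4 : Tendsto (fun l : ℝ => l - m) (𝓝 l0) (𝓝 (l0 - m)) := by
        have : Continuous (fun l : ℝ => l - m) := by fun_prop
        exact this.tendsto l0
      filter_upwards [h4.eventually hK, eventually_gt_nhds h] with l g1 g2 P hP
      have e1 : (m : ℝ) + (l - m) = l := by ring
      rw [e1] at g1
      exact g1 (by linarith) P hP
    · refine ⟨m + 1, C / Real.pi, by push_cast; linarith, ?_⟩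
      filter_upwards [eventually_lt_nhds h2,
        eventually_gt_nhds (show (m : ℝ) + 1 / 2 < l0 by linarith)] with l g1 g2 P hP
      have h5 := nsq_le_below (m + 1) (by omega) (show -(1 / 2) < l - ((m + 1 : ℕ) : ℝ) by
        push_cast; linarith) (by push_cast; linarith) P
      have e1 : ((m + 1 : ℕ) : ℝ) + (l - ((m + 1 : ℕ) : ℝ)) = l := by ring
      rw [e1] at h5
      rw [le_div_iff₀ hpi]
      linarith

theorem lip {l0 : ℝ} (hl0 : 0 < l0) : ∃ L : ℝ, ∃ ε : ℝ, 0 < ε ∧ ∀ x y : ℝ,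
    |x - l0| < ε → |y - l0| < ε → |wInf x - wInf y| ≤ L * |x - y| := by
  obtain ⟨m, K, hb, hK⟩ := bound_loc hl0 (wInf l0 + 2)
  obtain ⟨L, hL, ε1, hε1, hD⟩ := D_lip hb
  have hu := usc hl0 one_pos
  have hall := (hK.and hu).and (eventually_gt_nhds hl0)
  rw [Metric.eventually_nhds_iff] at hall
  obtain ⟨ε2, hε2, hall⟩ := hall
  refine ⟨K ^ 2 * L, min ε1 ε2, lt_min hε1 hε2, ?_⟩
  have key : ∀ x y : ℝ, |x - l0| < min ε1 ε2 → |y - l0| < min ε1 ε2 →
      wInf x ≤ wInf y + K ^ 2 * L * |x - y| := by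
    intro x y hx hy
    obtain ⟨⟨hKy, huy⟩, hy0⟩ := hall (y := y) (by
      rw [Real.dist_eq]; exact hy.trans_le (min_le_right _ _))
    obtain ⟨⟨hKx, hux⟩, hx0⟩ := hall (y := x) (by
      rw [Real.dist_eq]; exact hx.trans_le (min_le_right _ _))
    have e0 : ∀ t : ℝ, t - m - (l0 - m) = t - l0 := fun t => by ring
    obtain ⟨g1, g2, g3⟩ := hD (x - m) (y - m)
      (by rw [e0]; exact hx.trans_le (min_le_left _ _))
      (by rw [e0]; exact hy.trans_le (min_le_left _ _))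
    apply le_of_forall_pos_le_add
    intro δ hδ
    have hmin : 0 < min 1 δ := lt_min one_pos hδ
    obtain ⟨P, hP, hPy⟩ := near_min y (min 1 δ) hmin
    have h3 : min 1 δ ≤ 1 := min_le_left _ _
    have h3' : min 1 δ ≤ δ := min_le_right _ _
    have h4 := hKy P (by linarith)
    have h5 := wInt_diff m g1 g2 (by linarith) (by linarith) P
    have e1 : (m : ℝ) + (x - m) = x := by ring
    have e2 : (m : ℝ) + (y - m) = y := by ring
    rw [e1, e2] at h5
    have h6 : nsq ((Polynomial.X - 1) ^ m * P) ^ 2 ≤ K ^ 2 :=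
      pow_le_pow_left₀ (nsq_nonneg _) h4 2
    have h7 := mul_le_mul_of_nonneg_right h6 (D_nonneg (x - m) (y - m))
    have h8 := mul_le_mul_of_nonneg_left g3 (sq_nonneg K)
    have e3 : x - m - (y - m) = x - y := by ring
    rw [e3] at h8
    have h9 := wInf_le x P hP
    have h10 := le_abs_self (wInt x P - wInt y P)
    have h11 : K ^ 2 * (L * |x - y|) = K ^ 2 * L * |x - y| := by ring
    linarith
  intro x y hx hy
  have h1 := key x y hx hy
  have h2 := key y x hy hx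
  rw [abs_sub_comm y x] at h2
  rw [abs_le]
  constructor <;> linarith

theorem near_opt (k : ℕ) (hk : 1 ≤ k) : ∃ ε : ℝ, 0 < ε ∧ ∀ l : ℝ, |l - k| < ε →
    (∀ P : Polynomial ℤ, P.Monic → wInt l P ≤ wInf l + 1 / 2 → wInt k P = wInf k) ∧
    wInf l = sInf {x : ℝ | ∃ P : Polynomial ℤ, P.Monic ∧ wInt k P = wInf k ∧ x = wInt l P} := by
  have hk0 : (0 : ℝ) < k := by exact_mod_cast (show 0 < k by omega)
  have h1 := (opt_near k hk).and (usc hk0 (show (0 : ℝ) < 1 / 2 by norm_num))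
  rw [Metric.eventually_nhds_iff] at h1
  obtain ⟨ε, hε, h1⟩ := h1
  refine ⟨ε, hε, fun l hl => ?_⟩
  obtain ⟨h2, h3⟩ := h1 (y := l) (by rw [Real.dist_eq]; exact hl)
  have h4 : ∀ P : Polynomial ℤ, P.Monic → wInt l P ≤ wInf l + 1 / 2 → wInt k P = wInf k :=
    fun P hP h => h2 P hP (by linarith)
  refine ⟨h4, le_antisymm ?_ ?_⟩
  · obtain ⟨m, g1, Q, hQ, g2⟩ := nat_values k hk
    apply le_csInf
    · exact ⟨_, Q, hQ, by rw [g1, g2], rfl⟩
    · rintro x ⟨P, hP, _, rfl⟩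
      exact wInf_le l P hP
  · apply le_of_forall_pos_le_add
    intro δ hδ
    have hmin : 0 < min (1 / 2) δ := lt_min (by norm_num) hδ
    obtain ⟨P, hP, hPl⟩ := near_min l (min (1 / 2) δ) hmin
    have h5 : min (1 / 2) δ ≤ 1 / 2 := min_le_left _ _
    have h6 : min (1 / 2) δ ≤ δ := min_le_right _ _
    have h7 := h4 P hP (by linarith)
    have hbd : BddBelow {x : ℝ | ∃ P : Polynomial ℤ, P.Monic ∧ wInt k P = wInf k ∧
        x = wInt l P} := by
      refine ⟨wInf l, ?_⟩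
      rintro x ⟨Q, hQ, _, rfl⟩
      exact wInf_le l Q hQ
    have h8 := csInf_le hbd ⟨P, hP, h7, rfl⟩
    linarith

end Pool.Agent.MP658c
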