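import Pool.Agent.Lib.MP_658dbf_an_C.Kinks

/-!
Bounds for the slopes at natural numbers `k` with `I(k) = 4πk`.
-/

set_option autoImplicit false

open MeasureTheory Set Filter Topology

namespace Pool.Agent.MP658c

open Pool.Agent.MP658dbf Pool.Agent.MP658q

theorem a0_diff_one : DifferentiableAt ℝ a0 1 := by
  have hG : ∀ x : ℝ, 0 < x → DifferentiableAt ℝ Real.Gamma x := by
    intro x hx
    refine Real.differentiableAt_Gamma fun m hm => ?_
    have : (0 : ℝ) ≤ m := by positivity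
    linarith
  have h1 : DifferentiableAt ℝ (fun x : ℝ => 2 * x + 1) 1 := by fun_prop
  have h2 : DifferentiableAt ℝ (fun x : ℝ => x + 1) 1 := by fun_prop
  have h3 : DifferentiableAt ℝ (fun x : ℝ => Real.Gamma (2 * x + 1)) 1 :=
    DifferentiableAt.comp (g := Real.Gamma) (f := fun x : ℝ => 2 * x + 1) (1 : ℝ)
      (hG (2 * 1 + 1) (by norm_num)) h1
  have h4 : DifferentiableAt ℝ (fun x : ℝ => Real.Gamma (x + 1)) 1 :=
    DifferentiableAt.comp (g := Real.Gamma) (f := fun x : ℝ => x + 1) (1 : ℝ)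
      (hG (1 + 1) (by norm_num)) h2
  exact h3.div (h4.pow 2) (pow_ne_zero 2 (Real.Gamma_pos_of_pos (by norm_num)).ne')

theorem a0_deriv_one : HasDerivAt a0 2 1 := by
  have h0 := a0_diff_one.hasDerivAt
  have h1 : HasDerivAt (fun x : ℝ => a0 (x + 1)) (deriv a0 1) 0 := by
    have h2 : HasDerivAt (fun x : ℝ => x + 1) 1 0 := by
      simpa using (hasDerivAt_id (0 : ℝ)).add_const 1
    have h3 : HasDerivAt a0 (deriv a0 1) ((0 : ℝ) + 1) := by simpa using h0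
    have h4 : HasDerivAt (fun x : ℝ => a0 (x + 1)) (deriv a0 1 * 1) 0 :=
      HasDerivAt.comp (h₂ := a0) (h := fun x : ℝ => x + 1) (0 : ℝ) h3 h2
    rwa [mul_one] at h4
  have h5 : HasDerivAt (fun x : ℝ => 2 * (2 * x + 1) / (x + 1)) 2 0 := by
    have g1 : HasDerivAt (fun x : ℝ => 2 * (2 * x + 1)) (2 * (2 * 1)) 0 :=
      (((hasDerivAt_id (0 : ℝ)).const_mul 2).add_const 1).const_mul 2
    have g2 : HasDerivAt (fun x : ℝ => x + 1) 1 0 := by
      simpa using (hasDerivAt_id (0 : ℝ)).add_const 1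
    have g3 : HasDerivAt (fun x : ℝ => 2 * (2 * x + 1) / (x + 1))
        ((2 * (2 * 1) * (0 + 1) - 2 * (2 * 0 + 1) * 1) / (0 + 1) ^ 2) 0 :=
      g1.div g2 (by norm_num)
    have g4 : (2 * (2 * 1) * (0 + 1) - 2 * (2 * 0 + 1) * 1) / (0 + 1) ^ 2 = (2 : ℝ) := by
      norm_num
    rwa [g4] at g3
  have h6 := a0_deriv_zero.mul h5
  have h7 : deriv a0 1 = 0 * (2 * (2 * 0 + 1) / (0 + 1)) + a0 0 * 2 := by
    have h8 := h6.hasDerivWithinAt (s := Ici (0 : ℝ))
    have h9 : HasDerivWithinAt (fun x : ℝ => a0 (x + 1))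
        (0 * (2 * (2 * 0 + 1) / (0 + 1)) + a0 0 * 2) (Ici (0 : ℝ)) 0 := by
      refine h8.congr ?_ ?_
      · intro x hx
        exact a0_succ hx
      · exact a0_succ le_rfl
    exact (uniqueDiffWithinAt_Ici (0 : ℝ)).eq_deriv _ (h1.hasDerivWithinAt) h9
  rw [a0_zero] at h7
  have h8 : deriv a0 1 = 2 := by rw [h7]; norm_num
  rwa [h8] at h0

theorem G_deriv (c t : ℝ) {A A' : ℝ} (h : HasDerivAt a0 A' (t - c)) (hA : a0 (t - c) = A)
    (hc : 1 + (t - c) ≠ 0) :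
    HasDerivAt (fun l : ℝ => 2 * Real.pi * (2 * l * a0 (l - c) / (1 + (l - c))))
      (2 * Real.pi * (((2 * A + 2 * t * A') * (1 + (t - c)) - 2 * t * A) /
        (1 + (t - c)) ^ 2)) t := by
  have h1 : HasDerivAt (fun l : ℝ => l - c) 1 t := by
    simpa using (hasDerivAt_id t).sub_const c
  have h2 : HasDerivAt (fun l : ℝ => a0 (l - c)) (A' * 1) t :=
    HasDerivAt.comp (h₂ := a0) (h := fun l : ℝ => l - c) t h h1
  rw [mul_one] at h2
  have h3 : HasDerivAt (fun l : ℝ => 2 * l) 2 t := by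
    simpa using (hasDerivAt_id t).const_mul (2 : ℝ)
  have h4 : HasDerivAt (fun l : ℝ => 1 + (l - c)) 1 t := by
    simpa using h1.const_add 1
  have h5 : HasDerivAt (fun l : ℝ => 2 * Real.pi * (2 * l * a0 (l - c) / (1 + (l - c))))
      (2 * Real.pi * (((2 * a0 (t - c) + 2 * t * A') * (1 + (t - c)) -
        2 * t * a0 (t - c) * 1) / (1 + (t - c)) ^ 2)) t :=
    ((h3.mul h2).div h4 hc).const_mul (2 * Real.pi)
  rw [hA, mul_one] at h5
  exact h5

theorem lower_ge (k : ℕ) (hk : 1 ≤ k) (hv : wInf k = 4 * Real.pi * k) :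
    -(4 * Real.pi * (k - 1)) ≤ sInf (Slopes k) := by
  have hr := (hasDerivWithinAt_iff_tendsto_slope' (by simp)).mp (right_deriv k hk)
  have hz : HasDerivAt a0 0 ((k : ℝ) - k) := by
    rw [sub_self]
    exact a0_deriv_zero
  have hz' : a0 ((k : ℝ) - k) = 1 := by rw [sub_self, a0_zero]
  have hG := G_deriv k k hz hz' (by rw [sub_self]; norm_num)
  have hG' := (hasDerivWithinAt_iff_tendsto_slope' (s := Ioi (k : ℝ)) (by simp)).mp
    hG.hasDerivWithinAt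
  have e : -(4 * Real.pi * ((k : ℝ) - 1)) = 2 * Real.pi * (((2 * 1 + 2 * (k : ℝ) * 0) *
      (1 + ((k : ℝ) - k)) - 2 * k * 1) / (1 + ((k : ℝ) - k)) ^ 2) := by
    rw [sub_self]
    ring
  rw [e]
  refine le_of_tendsto_of_tendsto hG' hr ?_
  have e1 : ∀ᶠ l : ℝ in 𝓝 (k : ℝ), l < k + 1 := eventually_lt_nhds (by linarith)
  filter_upwards [self_mem_nhdsWithin, nhdsWithin_le_nhds e1] with l g0 g1
  have hlk : 0 < l - k := by
    have : (k : ℝ) < l := g0
    linarith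
  rw [slope_def_field, slope_def_field]
  apply div_le_div_of_nonneg_right _ hlk.le
  have h1 := wInf_lower hlk (by linarith) hk
  have e2 : (k : ℝ) + (l - k) = l := by ring
  rw [e2, wh_zero hlk] at h1
  have h2 : 2 * Real.pi * (2 * (k : ℝ) * a0 (k - k) / (1 + (k - k))) = 4 * Real.pi * k := by
    rw [sub_self, a0_zero]
    ring
  rw [hv]
  have h3 : a0 (l - k) = Real.Gamma (2 * (l - k) + 1) / Real.Gamma (l - k + 1) ^ 2 := rfl
  rw [h3]
  linarith

theorem upper_le (k : ℕ) (hk : 2 ≤ k) (hv : wInf k = 4 * Real.pi * k) :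
    sSup (Slopes k) ≤ 2 * Real.pi * (k + 2) := by
  obtain ⟨n, rfl⟩ : ∃ n, k = n + 1 := ⟨k - 1, by omega⟩
  have hn : 1 ≤ n := by omega
  have hl := (hasDerivWithinAt_iff_tendsto_slope' (by simp)).mp (left_deriv (n + 1) (by omega))
  have ec : ((n + 1 : ℕ) : ℝ) - n = 1 := by push_cast; ring
  have hz : HasDerivAt a0 2 (((n + 1 : ℕ) : ℝ) - n) := by
    rw [ec]
    exact a0_deriv_one
  have hz' : a0 (((n + 1 : ℕ) : ℝ) - n) = 2 := by rw [ec, a0_one]
  have hG := G_deriv n ((n + 1 : ℕ) : ℝ) hz hz' (by rw [ec]; norm_num)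
  have hG' := (hasDerivWithinAt_iff_tendsto_slope' (s := Iio ((n + 1 : ℕ) : ℝ)) (by simp)).mp
    hG.hasDerivWithinAt
  have e : 2 * Real.pi * (((n + 1 : ℕ) : ℝ) + 2) = 2 * Real.pi * (((2 * 2 +
      2 * ((n + 1 : ℕ) : ℝ) * 2) * (1 + (((n + 1 : ℕ) : ℝ) - n)) - 2 * ((n + 1 : ℕ) : ℝ) * 2) /
      (1 + (((n + 1 : ℕ) : ℝ) - n)) ^ 2) := by
    rw [ec]
    ring
  rw [e]
  refine le_of_tendsto_of_tendsto hl hG' ?_
  have e1 : ∀ᶠ l : ℝ in 𝓝 ((n + 1 : ℕ) : ℝ), (n : ℝ) < l :=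
    eventually_gt_nhds (by push_cast; linarith)
  filter_upwards [self_mem_nhdsWithin, nhdsWithin_le_nhds e1] with l g0 g1
  have g0' : l < ((n + 1 : ℕ) : ℝ) := g0
  have hlk : l - ((n + 1 : ℕ) : ℝ) < 0 := by linarith
  have hln : 0 < l - n := by linarith
  have hln1 : l - n ≤ 1 := by
    push_cast at g0'
    linarith
  rw [slope_def_field, slope_def_field]
  apply div_le_div_of_nonpos_of_le hlk.le
  have h1 := wInf_lower hln hln1 hn
  have e2 : (n : ℝ) + (l - n) = l := by ring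
  rw [e2, wh_zero hln] at h1
  have h2 : 2 * Real.pi * (2 * ((n + 1 : ℕ) : ℝ) * a0 (((n + 1 : ℕ) : ℝ) - n) /
      (1 + (((n + 1 : ℕ) : ℝ) - n))) = 4 * Real.pi * ((n + 1 : ℕ) : ℝ) := by
    rw [ec, a0_one]
    ring
  rw [hv]
  have h3 : a0 (l - n) = Real.Gamma (2 * (l - n) + 1) / Real.Gamma (l - n + 1) ^ 2 := rfl
  rw [h3, h2]
  linarith

end Pool.Agent.MP658c
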