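import Pool.Agent.Lib.MP_658dbf_an_C.Slope

/-!
Scaling of the exponents and the sign of the one-sided derivatives.
-/

set_option autoImplicit false

open MeasureTheory Set Filter Topology

namespace Pool.Agent.MP658c

open Pool.Agent.MP658dbf Pool.Agent.MP658q

theorem sp_expand (P : Polynomial ℤ) (k T : ℕ) :
    (Polynomial.X - 1) ^ k * sp 1 P k T = Polynomial.expand ℤ T ((Polynomial.X - 1) ^ k * P) := by
  unfold sp
  rw [map_mul, map_pow, map_sub, Polynomial.expand_X, map_one, ← geom_sum_mul, mul_pow]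
  ring

theorem supp_expand (F : Polynomial ℤ) {T : ℕ} (hT : 0 < T) :
    (Polynomial.expand ℤ T F).support = F.support.image (fun i => i * T) := by
  ext n
  rw [Polynomial.mem_support_iff, Finset.mem_image, Polynomial.coeff_expand hT]
  constructor
  · intro h
    by_cases hd : T ∣ n
    · rw [if_pos hd] at h
      refine ⟨n / T, Polynomial.mem_support_iff.mpr h, Nat.div_mul_cancel hd⟩
    · rw [if_neg hd] at h
      exact absurd rfl h
  · rintro ⟨i, hi, rfl⟩
    rw [if_pos (Dvd.intro_left i rfl), Nat.mul_div_cancel _ hT]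
    exact Polynomial.mem_support_iff.mp hi

theorem coeff_exp (F : Polynomial ℤ) {T : ℕ} (hT : 0 < T) (i : ℕ) :
    (Polynomial.expand ℤ T F).coeff (i * T) = F.coeff i := by
  rw [Polynomial.coeff_expand hT, if_pos (Dvd.intro_left i rfl), Nat.mul_div_cancel _ hT]

theorem inj_mul {T : ℕ} (hT : 0 < T) (S : Finset ℕ) :
    Set.InjOn (fun i : ℕ => i * T) (S : Set ℕ) := by
  intro a _ b _ hab
  exact Nat.eq_of_mul_eq_mul_right hT hab

theorem nsq_expand (F : Polynomial ℤ) {T : ℕ} (hT : 0 < T) :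
    nsq (Polynomial.expand ℤ T F) = nsq F := by
  rw [← nsq_support, ← nsq_support, supp_expand F hT, Finset.sum_image (inj_mul hT _)]
  apply Finset.sum_congr rfl
  intro i _
  rw [coeff_exp F hT]

theorem Phi_expand (F : Polynomial ℤ) {T : ℕ} (hT : 0 < T) :
    Phi (Polynomial.expand ℤ T F) = Phi F / T := by
  have hT' : (0 : ℝ) < T := by exact_mod_cast hT
  unfold Phi
  rw [supp_expand F hT, Finset.sum_image (inj_mul hT _), Finset.sum_div]
  apply Finset.sum_congr rfl
  intro i _
  rw [Finset.sum_image (inj_mul hT _), Finset.sum_div]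
  apply Finset.sum_congr rfl
  intro j _
  rw [coeff_exp F hT, coeff_exp F hT]
  by_cases hij : i = j
  · simp [hij]
  · have h1 : i * T ≠ j * T := fun h => hij (Nat.eq_of_mul_eq_mul_right hT h)
    rw [if_neg h1, if_neg hij]
    have h2 : |((i * T : ℕ) : ℝ) - ((j * T : ℕ) : ℝ)| = |(i : ℝ) - j| * T := by
      push_cast
      rw [← sub_mul, abs_mul, abs_of_pos hT']
    rw [h2, div_mul_eq_div_div]

theorem slopes_scale (k : ℕ) (hk : 1 ≤ k) {x : ℝ} (hx : x ∈ Slopes k) {T : ℕ} (hT : 0 < T) :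
    x / T ∈ Slopes k := by
  obtain ⟨P, hP, ho, rfl⟩ := hx
  refine ⟨sp 1 P k T, sp_monic Polynomial.monic_one hP k hT.ne', ?_, ?_⟩
  · rw [wInt_nat, sp_expand, nsq_expand _ hT, ← wInt_nat, ho]
  · rw [dI_eq k hk, dI_eq k hk, sp_expand, Phi_expand _ hT]
    ring

theorem inf_nonpos (k : ℕ) (hk : 1 ≤ k) : sInf (Slopes k) ≤ 0 := by
  obtain ⟨x, hx⟩ := slopes_nonempty k hk
  have h1 := tendsto_const_div_atTop_nhds_zero_nat x
  refine ge_of_tendsto h1 ?_
  filter_upwards [eventually_ge_atTop 1] with T hT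
  exact csInf_le (slopes_bddBelow k hk) (slopes_scale k hk hx (by omega))

theorem sup_nonneg (k : ℕ) (hk : 1 ≤ k) : 0 ≤ sSup (Slopes k) := by
  obtain ⟨x, hx⟩ := slopes_nonempty k hk
  have h1 := tendsto_const_div_atTop_nhds_zero_nat x
  refine le_of_tendsto h1 ?_
  filter_upwards [eventually_ge_atTop 1] with T hT
  exact le_csSup (slopes_bddAbove k hk) (slopes_scale k hk hx (by omega))

theorem inf_lt_sup (k : ℕ) (hk : 1 ≤ k) {x : ℝ} (hx : x ∈ Slopes k) (h0 : x ≠ 0) :
    sInf (Slopes k) < sSup (Slopes k) := by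
  have h2 := slopes_scale k hk hx (show 0 < 2 by norm_num)
  push_cast at h2
  rcases lt_or_gt_of_ne h0 with h | h
  · have h3 := csInf_le (slopes_bddBelow k hk) hx
    have h4 := le_csSup (slopes_bddAbove k hk) h2
    linarith
  · have h3 := csInf_le (slopes_bddBelow k hk) h2
    have h4 := le_csSup (slopes_bddAbove k hk) hx
    linarith

theorem diff_iff (k : ℕ) (hk : 1 ≤ k) :
    DifferentiableAt ℝ wInf k ↔ ∀ x ∈ Slopes k, x = 0 := by
  constructor
  · intro hd x hx
    by_contra h0
    have h1 := inf_lt_sup k hk hx h0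
    have h2 := hd.hasDerivAt
    have h3 := (uniqueDiffWithinAt_Ioi (k : ℝ)).eq_deriv _
      (h2.hasDerivWithinAt (s := Ioi (k : ℝ))) (right_deriv k hk)
    have h4 := (uniqueDiffWithinAt_Iio (k : ℝ)).eq_deriv _
      (h2.hasDerivWithinAt (s := Iio (k : ℝ))) (left_deriv k hk)
    rw [h3] at h4
    exact h1.ne h4
  · intro h
    obtain ⟨x, hx⟩ := slopes_nonempty k hk
    have hS : Slopes k = {0} := by
      apply Set.eq_singleton_iff_unique_mem.mpr
      refine ⟨?_, h⟩
      have := h x hx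
      rw [← this]
      exact hx
    have h1 := right_deriv k hk
    have h2 := left_deriv k hk
    rw [hS, csInf_singleton] at h1
    rw [hS, csSup_singleton] at h2
    have h3 : HasDerivAt wInf 0 (k : ℝ) := by
      have h4 := h2.Iic_of_Iio.union h1.Ici_of_Ioi
      rwa [Iic_union_Ici, hasDerivWithinAt_univ] at h4
    exact h3.differentiableAt

end Pool.Agent.MP658c
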