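import Pool.Agent.Lib.MP_658dbf_an_C.Lip

/-!
The infimum is locally semiconcave.
-/

set_option autoImplicit false

open MeasureTheory Set Filter Topology

namespace Pool.Agent.MP658c

open Pool.Agent.MP658dbf Pool.Agent.MP658q

theorem exp_semi (L B lo hi : ℝ)
    (hB : ∀ w ∈ Icc lo hi, (2 * L) ^ 2 * Real.exp (2 * w * L) ≤ 2 * B) {u v s t : ℝ}
    (hu : u ∈ Icc lo hi) (hv : v ∈ Icc lo hi) (hs : 0 ≤ s) (ht : 0 ≤ t) (hst : s + t = 1) :
    s * Real.exp (2 * u * L) + t * Real.exp (2 * v * L) ≤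
      Real.exp (2 * (s * u + t * v) * L) + B * (s * t * (u - v) ^ 2) := by
  have hexp : ∀ w : ℝ, HasDerivAt (fun w : ℝ => Real.exp (2 * w * L))
      (Real.exp (2 * w * L) * (2 * 1 * L)) w := by
    intro w
    exact (((hasDerivAt_id w).const_mul 2).mul_const L).exp
  have hconv : ConvexOn ℝ (Icc lo hi) (fun w : ℝ => B * w ^ 2 - Real.exp (2 * w * L)) := by
    apply convexOn_of_hasDerivWithinAt2_nonneg (convex_Icc lo hi)
      (f' := fun w => B * (2 * w) - Real.exp (2 * w * L) * (2 * 1 * L))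
      (f'' := fun w => B * 2 - Real.exp (2 * w * L) * (2 * 1 * L) * (2 * 1 * L))
    · fun_prop
    · intro w _
      have h1 : HasDerivAt (fun w : ℝ => B * w ^ 2) (B * (2 * w)) w := by
        have := (hasDerivAt_pow 2 w).const_mul B
        simpa using this
      exact (h1.sub (hexp w)).hasDerivWithinAt
    · intro w _
      have h1 : HasDerivAt (fun w : ℝ => B * (2 * w)) (B * (2 * 1)) w :=
        ((hasDerivAt_id w).const_mul 2).const_mul B
      rw [mul_one] at h1
      exact (h1.sub ((hexp w).mul_const (2 * 1 * L))).hasDerivWithinAt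
    · intro w hw
      have h1 := hB w (interior_subset hw)
      nlinarith
  have h := hconv.2 hu hv hs ht hst
  simp only [smul_eq_mul] at h
  have e : s * u ^ 2 + t * v ^ 2 - (s * u + t * v) ^ 2 = s * t * (u - v) ^ 2 := by
    have ht' : t = 1 - s := by linarith
    rw [ht']
    ring
  have e' : B * (s * t * (u - v) ^ 2) =
      B * (s * u ^ 2) + B * (t * v ^ 2) - B * (s * u + t * v) ^ 2 := by
    rw [← e]
    ring
  rw [e']
  linarith

theorem wt_semi {b : ℝ} (hb : -(1 / 2) < b) : ∃ M : ℝ, 0 ≤ M ∧ ∃ ε : ℝ, 0 < ε ∧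
    ∀ a a' s t : ℝ, |a - b| < ε → |a' - b| < ε → 0 ≤ s → 0 ≤ t → s + t = 1 →
      ∀ F : Polynomial ℤ,
      s * (∫ θ in (-Real.pi)..Real.pi, wt a θ * ‖Polynomial.aeval (zt θ) F‖ ^ 2) +
      t * (∫ θ in (-Real.pi)..Real.pi, wt a' θ * ‖Polynomial.aeval (zt θ) F‖ ^ 2) ≤
      (∫ θ in (-Real.pi)..Real.pi, wt (s * a + t * a') θ * ‖Polynomial.aeval (zt θ) F‖ ^ 2) +
        nsq F ^ 2 * M * (s * t * (a - a') ^ 2) := by
  set η : ℝ := min 1 ((b + 1 / 2) / 4) with hη
  have hη0 : 0 < η := lt_min one_pos (by linarith)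
  have hη2 : η ≤ (b + 1 / 2) / 4 := min_le_right _ _
  have hη3 : η ≤ 1 := min_le_left _ _
  set c : ℝ := b - 2 * η with hc
  have hc0 : -(1 / 2) < c := by rw [hc]; linarith
  have hI := int_wt hc0
  set W : ℝ := ∫ θ in (-Real.pi)..Real.pi, wt c θ with hW
  have hW0 : 0 ≤ W := by
    rw [hW]
    apply intervalIntegral.integral_nonneg (by linarith [Real.pi_pos])
    intro θ _
    exact wt_nonneg c θ
  set A : ℝ := 1 / (2 * (η / 2)) + 16 with hA
  have hA0 : 0 ≤ A := by positivity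
  refine ⟨2 * A ^ 2 * W, by positivity, η, hη0, fun a a' s t ha ha' hs ht hst F => ?_⟩
  rw [abs_lt] at ha ha'
  have ha1 : -(1 / 2) < a := by linarith
  have ha1' : -(1 / 2) < a' := by linarith
  have hcomb1 : b - η < s * a + t * a' := by
    have : s * (b - η) + t * (b - η) = b - η := by rw [← add_mul, hst, one_mul]
    rcases hs.eq_or_lt with h | h
    · have ht1 : t = 1 := by linarith
      rw [← h, ht1]
      linarith
    · have h1 := mul_lt_mul_of_pos_left (show b - η < a by linarith) h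
      have h2 := mul_le_mul_of_nonneg_left (show b - η ≤ a' by linarith) ht
      linarith
  have ha1'' : -(1 / 2) < s * a + t * a' := by linarith
  have hF := continuous_aeval_zt F
  have e : nsq F ^ 2 * (2 * A ^ 2 * W) * (s * t * (a - a') ^ 2) = ∫ θ in (-Real.pi)..Real.pi,
      (nsq F ^ 2 * (2 * A ^ 2) * (s * t * (a - a') ^ 2)) * wt c θ := by
    rw [intervalIntegral.integral_const_mul, ← hW]
    ring
  rw [e, ← intervalIntegral.integral_const_mul, ← intervalIntegral.integral_const_mul,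
    ← intervalIntegral.integral_add ((int_wt_mul ha1 F).const_mul _)
      ((int_wt_mul ha1' F).const_mul _),
    ← intervalIntegral.integral_add (int_wt_mul ha1'' F) (hI.const_mul _)]
  have hae : ∀ᵐ θ : ℝ ∂volume, θ ≠ 0 := ae_ne
  apply intervalIntegral.integral_mono_ae_restrict (by linarith [Real.pi_pos])
    (((int_wt_mul ha1 F).const_mul _).add ((int_wt_mul ha1' F).const_mul _))
    ((int_wt_mul ha1'' F).add (hI.const_mul _))
  rw [EventuallyLE, ae_restrict_iff' measurableSet_Icc]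
  have hae2 : ∀ᵐ θ : ℝ ∂volume, θ ≠ -Real.pi := by
    rw [ae_iff]; simp
  filter_upwards [hae, hae2] with θ hθ0 hθ1 hθ
  have hpos : 0 < ‖1 - zt θ‖ := norm_pos_of ⟨lt_of_le_of_ne hθ.1 (Ne.symm hθ1), hθ.2⟩ hθ0
  have hle := norm_le_two θ
  set L := Real.log ‖1 - zt θ‖ with hL
  have hw : ∀ r : ℝ, wt r θ = Real.exp (2 * r * L) := by
    intro r
    unfold wt
    change ‖1 - zt θ‖ ^ (2 * r) = _
    rw [Real.rpow_def_of_pos hpos, mul_comm]
  have hB : ∀ w ∈ Icc (b - η) (b + η), (2 * L) ^ 2 * Real.exp (2 * w * L) ≤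
      2 * (2 * A ^ 2 * wt c θ) := by
    intro w hw1
    have h3 := log_rpow hpos hle (show 0 < η / 2 by linarith)
      (show 2 * (η / 2) ≤ w - c by rw [hc]; linarith [hw1.1]) (by rw [hc]; linarith [hw1.2])
    have h4 : wt w θ = (‖1 - zt θ‖ ^ (w - c)) ^ 2 * wt c θ := by
      unfold wt
      change ‖1 - zt θ‖ ^ (2 * w) = _ * ‖1 - zt θ‖ ^ (2 * c)
      rw [← Real.rpow_natCast, ← Real.rpow_mul hpos.le, ← Real.rpow_add hpos]
      congr 1
      push_cast
      ring
    have h5 : (|L| * ‖1 - zt θ‖ ^ (w - c)) ^ 2 ≤ A ^ 2 :=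
      pow_le_pow_left₀ (by positivity) h3 2
    rw [mul_pow, sq_abs] at h5
    rw [← hw, h4]
    have h6 := mul_le_mul_of_nonneg_right h5 (wt_nonneg c θ)
    nlinarith
  have h7 := exp_semi L (2 * A ^ 2 * wt c θ) (b - η) (b + η) hB
    (u := a) (v := a') (s := s) (t := t) ⟨by linarith, by linarith⟩ ⟨by linarith, by linarith⟩
    hs ht hst
  rw [← hw, ← hw, ← hw] at h7
  have h8 := sup_sq_le F θ
  have h9 : 0 ≤ ‖Polynomial.aeval (zt θ) F‖ ^ 2 := by positivity
  have h10 := mul_le_mul_of_nonneg_right h7 h9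
  have h11 : 0 ≤ 2 * A ^ 2 * wt c θ * (s * t * (a - a') ^ 2) := by
    have := wt_nonneg c θ
    positivity
  have h12 := mul_le_mul_of_nonneg_left h8 h11
  nlinarith

theorem semi {l0 : ℝ} (hl0 : 0 < l0) : ∃ M : ℝ, ∃ ε : ℝ, 0 < ε ∧ ∀ x y s t : ℝ,
    |x - l0| < ε → |y - l0| < ε → 0 ≤ s → 0 ≤ t → s + t = 1 →
    s * wInf x + t * wInf y ≤ wInf (s * x + t * y) + M * (s * t * (x - y) ^ 2) := by
  obtain ⟨m, K, hb, hK⟩ := bound_loc hl0 (wInf l0 + 2)
  obtain ⟨M, hM, ε1, hε1, hD⟩ := wt_semi hb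
  have hu := usc hl0 one_pos
  have hall := (hK.and hu).and (eventually_gt_nhds hl0)
  rw [Metric.eventually_nhds_iff] at hall
  obtain ⟨ε2, hε2, hall⟩ := hall
  refine ⟨K ^ 2 * M, min ε1 ε2, lt_min hε1 hε2, ?_⟩
  intro x y s t hx hy hs ht hst
  have hw : |s * x + t * y - l0| < min ε1 ε2 := by
    have e1 : s * x + t * y - l0 = s * (x - l0) + t * (y - l0) := by
      have : l0 = (s + t) * l0 := by rw [hst, one_mul]
      linarith
    rw [e1]
    rw [abs_lt] at hx hy ⊢
    rcases hs.eq_or_lt with h | h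
    · have ht1 : t = 1 := by linarith
      rw [← h, ht1]
      constructor <;> linarith [hy.1, hy.2]
    · have h1 := mul_lt_mul_of_pos_left hx.1 h
      have h2 := mul_lt_mul_of_pos_left hx.2 h
      have h3 := mul_le_mul_of_nonneg_left hy.1.le ht
      have h4 := mul_le_mul_of_nonneg_left hy.2.le ht
      have h5 : s * -min ε1 ε2 + t * -min ε1 ε2 = -min ε1 ε2 := by
        rw [← add_mul, hst, one_mul]
      have h6 : s * min ε1 ε2 + t * min ε1 ε2 = min ε1 ε2 := by
        rw [← add_mul, hst, one_mul]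
      constructor <;> linarith
  obtain ⟨_, hx0⟩ := hall (y := x) (by
    rw [Real.dist_eq]; exact hx.trans_le (min_le_right _ _))
  obtain ⟨_, hy0⟩ := hall (y := y) (by
    rw [Real.dist_eq]; exact hy.trans_le (min_le_right _ _))
  obtain ⟨⟨hKw, huw⟩, hw0⟩ := hall (y := s * x + t * y) (by
    rw [Real.dist_eq]; exact hw.trans_le (min_le_right _ _))
  apply le_of_forall_pos_le_add
  intro δ hδ
  have hmin : 0 < min 1 δ := lt_min one_pos hδ
  obtain ⟨P, hP, hPw⟩ := near_min (s * x + t * y) (min 1 δ) hmin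
  have h3 : min 1 δ ≤ 1 := min_le_left _ _
  have h3' : min 1 δ ≤ δ := min_le_right _ _
  have h4 := hKw P (by linarith)
  have e0 : ∀ r : ℝ, r - m - (l0 - m) = r - l0 := fun r => by ring
  have h5 := hD (x - m) (y - m) s t
    (by rw [e0]; exact hx.trans_le (min_le_left _ _))
    (by rw [e0]; exact hy.trans_le (min_le_left _ _)) hs ht hst
    ((Polynomial.X - 1) ^ m * P)
  have e2 : s * (x - m) + t * (y - m) = s * x + t * y - m := by
    have : (m : ℝ) = (s + t) * m := by rw [hst, one_mul]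
    linarith
  have e3 : x - (m : ℝ) - (y - m) = x - y := by ring
  rw [e2, e3] at h5
  have q : ∀ r : ℝ, 0 < r → (∫ θ in (-Real.pi)..Real.pi, wt (r - m) θ *
      ‖Polynomial.aeval (zt θ) ((Polynomial.X - 1) ^ m * P)‖ ^ 2) = wInt r P := by
    intro r hr
    have e4 : (m : ℝ) + (r - m) = r := by ring
    have h6 := wInt_split m (r - m) (by linarith) P
    rw [e4] at h6
    exact h6.symm
  rw [q x hx0, q y hy0, q _ hw0] at h5
  have h6 : nsq ((Polynomial.X - 1) ^ m * P) ^ 2 ≤ K ^ 2 :=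
    pow_le_pow_left₀ (nsq_nonneg _) h4 2
  have h7 : 0 ≤ M * (s * t * (x - y) ^ 2) := by positivity
  have h8 := mul_le_mul_of_nonneg_right h6 h7
  have h9 := mul_le_mul_of_nonneg_left (wInf_le x P hP) hs
  have h10 := mul_le_mul_of_nonneg_left (wInf_le y P hP) ht
  nlinarith

end Pool.Agent.MP658c
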