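import Pool.Agent.Lib.MP_658dbf_an_C.Kink

/-!
The slope of a polynomial at a natural number in terms of its coefficients.
-/

set_option autoImplicit false

open MeasureTheory Set Filter Topology

namespace Pool.Agent.MP658c

open Pool.Agent.MP658dbf Pool.Agent.MP658q

/-- `∑_{i ≠ j} f_i f_j / |i - j|` -/
noncomputable def Phi (F : Polynomial ℤ) : ℝ :=
  ∑ i ∈ F.support, ∑ j ∈ F.support,
    if i = j then (0 : ℝ) else ((F.coeff i : ℝ) * F.coeff j) / |(i : ℝ) - j|

theorem a0_deriv_zero : HasDerivAt a0 0 0 := by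
  have hG : HasDerivAt Real.Gamma (deriv Real.Gamma 1) 1 := by
    apply DifferentiableAt.hasDerivAt
    refine Real.differentiableAt_Gamma fun m hm => ?_
    have : (0 : ℝ) ≤ m := by positivity
    linarith
  have h1 : HasDerivAt (fun x : ℝ => 2 * x + 1) 2 0 := by
    simpa using ((hasDerivAt_id (0 : ℝ)).const_mul (2 : ℝ)).add_const 1
  have h2 : HasDerivAt (fun x : ℝ => x + 1) 1 0 := by
    simpa using (hasDerivAt_id (0 : ℝ)).add_const 1
  have h3 : HasDerivAt (fun x : ℝ => Real.Gamma (2 * x + 1)) (deriv Real.Gamma 1 * 2) 0 := by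
    have hG' : HasDerivAt Real.Gamma (deriv Real.Gamma 1) (2 * (0 : ℝ) + 1) := by
      simpa using hG
    exact hG'.comp (0 : ℝ) h1
  have h4 : HasDerivAt (fun x : ℝ => Real.Gamma (x + 1)) (deriv Real.Gamma 1 * 1) 0 := by
    have hG' : HasDerivAt Real.Gamma (deriv Real.Gamma 1) ((0 : ℝ) + 1) := by
      simpa using hG
    exact hG'.comp (0 : ℝ) h2
  have h5 := h3.div (h4.pow 2) (by simp)
  have h6 : HasDerivAt a0 ((deriv Real.Gamma 1 * 2 * Real.Gamma (0 + 1) ^ 2 -
      Real.Gamma (2 * 0 + 1) * (((2 : ℕ) : ℝ) * Real.Gamma (0 + 1) ^ (2 - 1) *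
        (deriv Real.Gamma 1 * 1))) / (Real.Gamma (0 + 1) ^ 2) ^ 2) 0 := h5
  convert h6 using 1
  simp
  ring

theorem a0_quot : Tendsto (fun δ : ℝ => (a0 δ - 1) / δ) (𝓝[>] 0) (𝓝 0) := by
  have h := a0_deriv_zero.hasDerivWithinAt (s := Ioi (0 : ℝ))
  rw [hasDerivWithinAt_iff_tendsto_slope' (by simp)] at h
  refine h.congr ?_
  intro δ
  rw [slope_def_field, a0_zero, sub_zero]

theorem kap_quot (n : ℕ) (hn : 1 ≤ n) :
    Tendsto (fun δ : ℝ => kap δ n / δ) (𝓝[>] 0) (𝓝 (1 / n)) := by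
  obtain ⟨m, rfl⟩ : ∃ m, n = m + 1 := ⟨n - 1, by omega⟩
  have h1 : Tendsto (fun δ : ℝ => 2 * tf δ m / ((m + 1 : ℕ) + δ)) (𝓝[>] 0)
      (𝓝 (2 * tf 0 m / ((m + 1 : ℕ) + 0))) := by
    have h2 : ContinuousAt (fun δ : ℝ => 2 * tf δ m / ((m + 1 : ℕ) + δ)) 0 := by
      apply ContinuousAt.div ((tf_cont le_rfl m).const_mul 2) (by fun_prop)
      positivity
    exact h2.tendsto.mono_left nhdsWithin_le_nhds
  have h3 : tf 0 m = 1 / 2 := by
    unfold tf
    rw [a0_zero]
    have : ∏ j ∈ Finset.range m, (((j : ℝ) + 1 - 0) / ((j : ℝ) + 1 + 0)) = 1 := by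
      apply Finset.prod_eq_one
      intro j _
      rw [sub_zero, add_zero]
      exact div_self (by positivity)
    rw [this, mul_one]
  have h4 : 2 * tf 0 m / ((m + 1 : ℕ) + 0) = 1 / ((m + 1 : ℕ) : ℝ) := by
    rw [h3, add_zero]
    norm_num
  rw [h4] at h1
  refine h1.congr' ?_
  filter_upwards [self_mem_nhdsWithin] with δ hδ
  have hδ0 : 0 < δ := hδ
  rw [← tl_eq hδ0]
  simp only [tl, Nat.succ_ne_zero, if_false]
  have h5 : ((m + 1 : ℕ) : ℝ) + δ ≠ 0 := by positivity
  field_simp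

theorem dI_eq (k : ℕ) (hk : 1 ≤ k) (P : Polynomial ℤ) :
    dI k P = -(2 * Real.pi) * Phi ((Polynomial.X - 1) ^ k * P) := by
  have hk1 : (1 : ℝ) ≤ k := by exact_mod_cast hk
  set F := (Polynomial.X - 1) ^ k * P with hF
  -- the right derivative at `k`
  have hd := ((deriv_wInt P (show 1 / 2 < (k : ℝ) by linarith)).2.hasDerivWithinAt
      (s := Ioi (k : ℝ)))
  rw [hasDerivWithinAt_iff_tendsto_slope' (by simp)] at hd
  have hshift : Tendsto (fun δ : ℝ => (k : ℝ) + δ) (𝓝[>] 0) (𝓝[>] (k : ℝ)) := by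
    apply tendsto_nhdsWithin_of_tendsto_nhds_of_eventually_within
    · have : Continuous (fun δ : ℝ => (k : ℝ) + δ) := by fun_prop
      have h2 := this.tendsto (0 : ℝ)
      rw [add_zero] at h2
      exact h2.mono_left nhdsWithin_le_nhds
    · filter_upwards [self_mem_nhdsWithin] with δ hδ
      have : (0 : ℝ) < δ := hδ
      show (k : ℝ) < k + δ
      linarith
  have hd2 := hd.comp hshift
  -- the same limit from the coefficients
  have hlim : Tendsto (fun δ : ℝ => 2 * Real.pi * ∑ i ∈ F.support, ∑ j ∈ F.support,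
      ((F.coeff i : ℝ) * F.coeff j) * (if i = j then (a0 δ - 1) / δ else
        -(kap δ (Int.natAbs (((i : ℕ) : ℤ) - ((j : ℕ) : ℤ))) / δ))) (𝓝[>] 0)
      (𝓝 (2 * Real.pi * ∑ i ∈ F.support, ∑ j ∈ F.support,
      ((F.coeff i : ℝ) * F.coeff j) * (if i = j then 0 else
        -(1 / ((Int.natAbs (((i : ℕ) : ℤ) - ((j : ℕ) : ℤ)) : ℕ) : ℝ))))) := by
    apply Tendsto.const_mul
    apply tendsto_finsetSum
    intro i _
    apply tendsto_finsetSum
    intro j _
    apply Tendsto.const_mul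
    by_cases hij : i = j
    · simp only [hij, if_true]
      exact a0_quot
    · simp only [hij, if_false]
      apply Tendsto.neg
      exact kap_quot _ (by omega)
  have heq : (slope (fun l => wInt l P) (k : ℝ) ∘ fun δ : ℝ => (k : ℝ) + δ) =ᶠ[𝓝[>] 0]
      (fun δ : ℝ => 2 * Real.pi * ∑ i ∈ F.support, ∑ j ∈ F.support,
      ((F.coeff i : ℝ) * F.coeff j) * (if i = j then (a0 δ - 1) / δ else
        -(kap δ (Int.natAbs (((i : ℕ) : ℤ) - ((j : ℕ) : ℤ))) / δ))) := by
    filter_upwards [self_mem_nhdsWithin] with δ hδ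
    have hδ0 : 0 < δ := hδ
    simp only [Function.comp]
    rw [slope_def_field, wInt_energy k hδ0 P F hF, wInt_nat, ← hF, ← nsq_support]
    have e1 : (k : ℝ) + δ - k = δ := by ring
    rw [e1, ← mul_sub, mul_div_assoc]
    congr 1
    have e2 : ∑ i ∈ F.support, (F.coeff i : ℝ) ^ 2 = ∑ i ∈ F.support, ∑ j ∈ F.support,
        (if i = j then ((F.coeff i : ℝ) * F.coeff j) else 0) := by
      apply Finset.sum_congr rfl
      intro i hi
      rw [Finset.sum_ite_eq, if_pos hi]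
      ring
    rw [e2, ← Finset.sum_sub_distrib, Finset.sum_div]
    apply Finset.sum_congr rfl
    intro i _
    rw [← Finset.sum_sub_distrib, Finset.sum_div]
    apply Finset.sum_congr rfl
    intro j _
    by_cases hij : i = j
    · subst hij
      simp only [if_true, sub_self, Int.natAbs_zero]
      rw [wh_zero hδ0]
      unfold a0
      ring
    · have h1 : Int.natAbs (((i : ℕ) : ℤ) - ((j : ℕ) : ℤ)) ≠ 0 := by omega
      simp only [hij, if_false]
      rw [kap_pos δ h1]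
      ring
  have h1 := tendsto_nhds_unique (hd2.congr' heq) hlim
  rw [h1]
  unfold Phi
  rw [neg_mul, ← mul_neg]
  congr 1
  rw [← Finset.sum_neg_distrib]
  apply Finset.sum_congr rfl
  intro i _
  rw [← Finset.sum_neg_distrib]
  apply Finset.sum_congr rfl
  intro j _
  by_cases hij : i = j
  · simp [hij]
  · simp only [hij, if_false]
    have h2 : ((Int.natAbs (((i : ℕ) : ℤ) - ((j : ℕ) : ℤ)) : ℕ) : ℝ) = |(i : ℝ) - j| := by
      rw [Nat.cast_natAbs, Int.cast_abs]
      push_cast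
      rfl
    rw [h2]
    ring

end Pool.Agent.MP658c
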