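import Pool.Agent.Lib.MP_658dbf_an_Q.Final

/-!
Continuity of the weights `|1 - z|^(2a)` in mean, `a > -1/2`.
-/

set_option autoImplicit false

open MeasureTheory Set Filter Topology

namespace Pool.Agent.MP658c

open Pool.Agent.MP658dbf Pool.Agent.MP658q

theorem norm_le_two (θ : ℝ) : ‖1 - zt θ‖ ≤ 2 := by
  refine (norm_sub_le _ _).trans ?_
  rw [norm_one, norm_zt]
  norm_num

theorem wt_nonneg (a θ : ℝ) : 0 ≤ wt a θ := by
  unfold wt
  positivity

theorem norm_pos_of {θ : ℝ} (h : θ ∈ Ioc (-Real.pi) Real.pi) (h0 : θ ≠ 0) : 0 < ‖1 - zt θ‖ := by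
  have h1 := norm_one_sub_exp θ
  unfold zt
  rw [h1, abs_pos]
  have hs : Real.sin (θ / 2) ≠ 0 := by
    rcases lt_or_gt_of_ne h0 with h2 | h2
    · exact (Real.sin_neg_of_neg_of_neg_pi_lt (by linarith) (by linarith [h.1, Real.pi_pos])).ne
    · exact (Real.sin_pos_of_pos_of_lt_pi (by linarith) (by linarith [h.2, Real.pi_pos])).ne'
  exact mul_ne_zero two_ne_zero hs

theorem measurable_wt (a : ℝ) : Measurable (wt a) := by
  unfold wt
  have h : Measurable (fun θ : ℝ => ‖1 - Complex.exp (θ * Complex.I)‖) := by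
    apply Continuous.measurable
    fun_prop
  exact h.pow_const _

theorem wt_neg (a θ : ℝ) : wt a (-θ) = wt a θ := by
  rw [wt_eq, wt_eq]
  congr 1
  have : (-θ) / 2 = -(θ / 2) := by ring
  rw [this, Real.sin_neg]
  rw [mul_neg, abs_neg]

theorem int_wt_half {c : ℝ} (hc : -(1 / 2) < c) (hc0 : c < 0) :
    IntervalIntegrable (wt c) volume 0 Real.pi := by
  have hpi := Real.pi_pos
  have h1 : IntervalIntegrable (fun θ : ℝ => (2 / Real.pi) ^ (2 * c) * θ ^ (2 * c)) volume 0
      Real.pi := by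
    apply IntervalIntegrable.const_mul
    exact intervalIntegral.intervalIntegrable_rpow' (by linarith)
  refine h1.mono_fun' (measurable_wt c).aestronglyMeasurable ?_
  rw [uIoc_of_le hpi.le]
  filter_upwards [ae_restrict_mem measurableSet_Ioc] with θ hθ
  rw [Real.norm_of_nonneg (wt_nonneg c θ), wt_eq]
  have hs : 2 / Real.pi * θ ≤ 2 * Real.sin (θ / 2) := by
    have h2 := Real.mul_le_sin (x := θ / 2) (by linarith [hθ.1]) (by linarith [hθ.2])
    have h3 : 2 * (2 / Real.pi * (θ / 2)) = 2 / Real.pi * θ := by ring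
    linarith
  have hp : 0 < 2 / Real.pi * θ := mul_pos (by positivity) hθ.1
  rw [abs_of_nonneg (by linarith), ← Real.mul_rpow (by positivity) hθ.1.le]
  exact Real.rpow_le_rpow_of_nonpos hp hs (by linarith)

theorem int_wt {c : ℝ} (hc : -(1 / 2) < c) :
    IntervalIntegrable (wt c) volume (-Real.pi) Real.pi := by
  rcases lt_trichotomy c 0 with h | h | h
  · have h1 := int_wt_half hc h
    have h2 : IntervalIntegrable (wt c) volume (-Real.pi) 0 := by
      have h3 := (IntervalIntegrable.iff_comp_neg (f := wt c)).mp h1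
      have h4 : (fun θ => wt c (-θ)) = wt c := by
        funext θ
        exact wt_neg c θ
      rw [h4, neg_zero] at h3
      exact h3.symm
    exact h2.trans h1
  · rw [h]
    have : wt 0 = fun _ => (1 : ℝ) := by
      funext θ
      unfold wt
      simp
    rw [this]
    exact intervalIntegrable_const
  · exact (continuous_wt h).intervalIntegrable _ _

/-- the mean distance of two weights -/
noncomputable def D (a b : ℝ) : ℝ :=
  ∫ θ in (-Real.pi)..Real.pi, |wt a θ - wt b θ|

theorem wt_le {a c θ : ℝ} (hca : c ≤ a) (hac : a ≤ c + 2) (h0 : 0 < ‖1 - zt θ‖) :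
    wt a θ ≤ 16 * wt c θ := by
  unfold wt
  have h0' : 0 < ‖1 - Complex.exp (θ * Complex.I)‖ := h0
  have h2 : ‖1 - Complex.exp (θ * Complex.I)‖ ≤ 2 := norm_le_two θ
  have h1 : 2 * a = 2 * c + 2 * (a - c) := by ring
  rw [h1, Real.rpow_add h0', mul_comm]
  apply mul_le_mul_of_nonneg_right _ (by positivity)
  calc ‖1 - Complex.exp (θ * Complex.I)‖ ^ (2 * (a - c)) ≤ 2 ^ (2 * (a - c)) :=
        Real.rpow_le_rpow h0'.le h2 (by linarith)
    _ ≤ 2 ^ (4 : ℝ) := Real.rpow_le_rpow_of_exponent_le (by norm_num) (by linarith)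
    _ = 16 := by norm_num

theorem D_tendsto {b : ℝ} (hb : -(1 / 2) < b) : Tendsto (fun a => D a b) (𝓝 b) (𝓝 0) := by
  obtain ⟨c, hc, hcb, hbc⟩ : ∃ c, -(1 / 2) < c ∧ c < b ∧ b < c + 2 := by
    refine ⟨max (b - 1) ((b - 1 / 2) / 2), ?_, ?_, ?_⟩
    · exact lt_max_of_lt_right (by linarith)
    · exact max_lt (by linarith) (by linarith)
    · have := le_max_left (b - 1) ((b - 1 / 2) / 2)
      linarith
  have h0 : (0 : ℝ) = ∫ θ in (-Real.pi)..Real.pi, (0 : ℝ) := by simp
  rw [h0]
  unfold D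
  apply intervalIntegral.tendsto_integral_filter_of_dominated_convergence
    (fun θ => 32 * wt c θ)
  · filter_upwards with a
    exact (((measurable_wt a).sub (measurable_wt b)).abs).aestronglyMeasurable
  · filter_upwards [eventually_gt_nhds hcb, eventually_lt_nhds hbc] with a h1 h2
    have hae : ∀ᵐ θ : ℝ ∂volume, θ ≠ 0 := by
      rw [ae_iff]; simp
    filter_upwards [hae] with θ hθ0 hθ
    rw [uIoc_of_le (by linarith [Real.pi_pos])] at hθ
    have hpos := norm_pos_of hθ hθ0
    have h3 := wt_le h1.le h2.le hpos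
    have h4 := wt_le hcb.le hbc.le hpos
    have h5 := wt_nonneg a θ
    have h6 := wt_nonneg b θ
    rw [Real.norm_eq_abs, abs_abs, abs_le]
    constructor <;> linarith
  · exact (int_wt hc).const_mul 32
  · have hae : ∀ᵐ θ : ℝ ∂volume, θ ≠ 0 := by
      rw [ae_iff]; simp
    filter_upwards [hae] with θ hθ0 hθ
    rw [uIoc_of_le (by linarith [Real.pi_pos])] at hθ
    have hpos : 0 < ‖1 - Complex.exp (θ * Complex.I)‖ := norm_pos_of hθ hθ0
    have h1 : Tendsto (fun a => wt a θ) (𝓝 b) (𝓝 (wt b θ)) := by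
      unfold wt
      have : Continuous (fun a : ℝ => ‖1 - Complex.exp (θ * Complex.I)‖ ^ (2 * a)) := by
        apply Continuous.rpow continuous_const (by fun_prop)
        intro x
        left
        exact hpos.ne'
      exact this.tendsto b
    have h2 := (h1.sub_const (wt b θ)).abs
    rw [sub_self, abs_zero] at h2
    exact h2

theorem D_nonneg (a b : ℝ) : 0 ≤ D a b := by
  unfold D
  apply intervalIntegral.integral_nonneg (by linarith [Real.pi_pos])
  intro θ _
  exact abs_nonneg _

end Pool.Agent.MP658c
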